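import Mathlib

namespace Run7.h457

open MvPolynomial KaehlerDifferential

/-- The homogeneous coordinate ring `ℂ[x₀,…,x₄]` of projective 4-space. -/
abbrev S5 : Type := MvPolynomial (Fin 5) ℂ

/-- The linear vector field `D_A = ∑ᵢ (∑ⱼ Aᵢⱼ xⱼ) ∂/∂xᵢ` on `ℂ⁵`, as a derivation of
`ℂ[x₀,…,x₄]`. It induces a vector field on projective 4-space, which is zero exactly when `A` is
a scalar matrix. -/
noncomputable def linearVF (A : Matrix (Fin 5) (Fin 5) ℂ) : Derivation ℂ S5 S5 :=
  mkDerivation ℂ (fun i => ∑ j, C (A i j) * X j)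

section
variable {K : Type} [Field K] [Algebra ℂ K]

/-- The value `∑ᵢ cᵢ xᵢ` of the linear form with coefficient vector `c` at the generic point
`x ∈ K⁵`. -/
noncomputable def linK (x : Fin 5 → K) (c : Fin 5 → ℂ) : K := ∑ i, c i • x i

/-- The coordinate ring of the affine open subset of the variety with generic point `x` where the
linear form with coefficient vector `c` does not vanish: the `ℂ`-algebra generated by the
quotients of linear forms with this denominator. -/
noncomputable def chart (x : Fin 5 → K) (c : Fin 5 → ℂ) : Subalgebra ℂ K :=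
  Algebra.adjoin ℂ (Set.range fun d : Fin 5 → ℂ => linK x d / linK x c)

/-- `K` is generated over `ℂ` by the coordinates of `x ∈ K⁵`, and the prime ideal
`I = {f | f(x) = 0}` of `ℂ[x₀,…,x₄]` is homogeneous. So `K` is the fraction field of
`ℂ[x₀,…,x₄]/I`, and `x` is the generic point of the (affine cone over the) irreducible closed
subvariety `X` of projective 4-space defined by `I`. Further `X` is not contained in a hyperplane,
and it is smooth: the affine open subset where a given nonzero linear form does not vanish is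
smooth over `ℂ`. -/
structure IsSmoothNondegenerate (x : Fin 5 → K) : Prop where
  generates : IntermediateField.adjoin ℂ (Set.range x) = ⊤
  homogeneous : ∀ f : S5, aeval x f = 0 → ∀ n : ℕ, aeval x (homogeneousComponent n f) = 0
  nondegenerate : ∀ c : Fin 5 → ℂ, linK x c = 0 → c = 0
  smooth : ∀ c : Fin 5 → ℂ, c ≠ 0 → Algebra.Smooth ℂ (chart x c)

/-- Restriction `Ω[A⁄ℂ] → Ω[B⁄ℂ]` of differential 1-forms along an inclusion `A ≤ B` of
subalgebras, `a • D b ↦ a • D b`. -/
noncomputable def res {A B : Subalgebra ℂ K} (h : A ≤ B) :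
    Ω[A⁄ℂ] →ₗ[ℂ] Ω[B⁄ℂ] :=
  letI : Algebra A B := (Subalgebra.inclusion h).toRingHom.toAlgebra
  haveI : IsScalarTower ℂ A B := IsScalarTower.of_algebraMap_eq' rfl
  (KaehlerDifferential.map ℂ ℂ A B).restrictScalars ℂ

/-- Differential 1-forms on two affine open subsets with coordinate rings `A` and `B` agree on the
intersection, whose coordinate ring is `A ⊔ B`. -/
def Agree {A B : Subalgebra ℂ K} (u : Ω[A⁄ℂ]) (v : Ω[B⁄ℂ]) : Prop :=
  res (B := A ⊔ B) le_sup_left u = res (B := A ⊔ B) le_sup_right v

/-- A global regular 1-form on the variety with generic point `x`: a family of Kähler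
differentials, one on each affine open subset where a given nonzero linear form does not vanish,
any two of which agree on the intersection. -/
def IsGlobalOneForm (x : Fin 5 → K) (w : ∀ c : Fin 5 → ℂ, Ω[chart x c⁄ℂ]) : Prop :=
  ∀ c d : Fin 5 → ℂ, c ≠ 0 → d ≠ 0 → Agree (w c) (w d)

/-- The irregularity `q(X) = h⁰(X, Ω¹_X)` is zero: each global regular 1-form vanishes on each of
the affine open subsets. -/
def IrregularityZero (x : Fin 5 → K) : Prop :=
  ∀ w : (∀ c : Fin 5 → ℂ, Ω[chart x c⁄ℂ]), IsGlobalOneForm x w → ∀ c : Fin 5 → ℂ, c ≠ 0 → w c = 0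

end

end Run7.h457
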