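import Mathlib
import Pool.Agent.Run7.h457.Defs

namespace Run7.h457

open MvPolynomial

/-- The invertible matrix `g` induces a projective transformation of projective 4-space mapping the
variety `X` with generic point `x` onto itself: a polynomial `f` vanishes at `x` if and only if it
vanishes at the point `g x`, that is `f ∈ I ↔ f(g X) ∈ I` for the homogeneous ideal `I` of `X`. -/
def IsProjAut {K : Type} [Field K] [Algebra ℂ K] (x : Fin 5 → K)
    (g : Matrix (Fin 5) (Fin 5) ℂ) : Prop :=
  g.det ≠ 0 ∧ ∀ f : S5, aeval x f = 0 ↔ aeval (fun i => linK x (g i)) f = 0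

end Run7.h457
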