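import Mathlib

namespace Run7.h457

open HahnSeries

attribute [-instance] HahnSeries.powerSeriesAlgebra

section Laurent

variable {K : Type*} [Field K]

section
variable [Algebra ℂ K]

lemma support_map_der (δ : Derivation ℂ K K) (x : HahnSeries ℤ K) :
    (x.map δ).support ⊆ x.support := by
  intro m hm hm'
  apply hm
  simp [hm']

/-- Coefficientwise extension of a derivation to Laurent series. -/
noncomputable def hatD (δ : Derivation ℂ K K) :
    Derivation ℂ (HahnSeries ℤ K) (HahnSeries ℤ K) where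
  toFun x := x.map δ
  map_add' x y := by
    ext n; simp [HahnSeries.map]
  map_smul' c x := by
    ext n
    simp [HahnSeries.map]
  map_one_eq_zero' := by
    ext n
    simp only [HahnSeries.map, LinearMap.coe_mk, AddHom.coe_mk, coeff_one, coeff_zero]
    split_ifs <;> simp
  leibniz' x y := by
    ext n
    simp only [LinearMap.coe_mk, AddHom.coe_mk, coeff_add, smul_eq_mul]
    rw [mul_comm y, coeff_mul_left' x.isPWO_support (support_map_der δ x),
      coeff_mul_right' y.isPWO_support (support_map_der δ y), HahnSeries.map_coeff,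
      coeff_mul, map_sum, ← Finset.sum_add_distrib]
    refine Finset.sum_congr rfl fun ij _ => ?_
    rw [δ.leibniz, HahnSeries.map_coeff, HahnSeries.map_coeff, smul_eq_mul, smul_eq_mul,
      mul_comm (y.coeff _)]

@[simp] lemma hatD_coeff (δ : Derivation ℂ K K) (x : HahnSeries ℤ K) (n : ℤ) :
    (hatD δ x).coeff n = δ (x.coeff n) := rfl

end

/-- Laurent series with exponents `≥ 0`. -/
def IsPos (x : HahnSeries ℤ K) : Prop := ∀ n < 0, x.coeff n = 0

/-- Laurent series with exponents `≤ 0`. -/
def IsNeg (x : HahnSeries ℤ K) : Prop := ∀ n > 0, x.coeff n = 0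

lemma IsPos.add {x y : HahnSeries ℤ K} (hx : IsPos x) (hy : IsPos y) : IsPos (x + y) := by
  intro n hn; simp [hx n hn, hy n hn]

lemma IsNeg.add {x y : HahnSeries ℤ K} (hx : IsNeg x) (hy : IsNeg y) : IsNeg (x + y) := by
  intro n hn; simp [hx n hn, hy n hn]

lemma IsPos.mul {x y : HahnSeries ℤ K} (hx : IsPos x) (hy : IsPos y) :
    IsPos (x * y) ∧ (x * y).coeff 0 = x.coeff 0 * y.coeff 0 := by
  constructor
  · intro n hn
    rw [coeff_mul]
    refine Finset.sum_eq_zero fun ij hij => ?_
    rw [Finset.mem_antidiagonal] at hij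
    obtain ⟨h1, h2, h3⟩ := hij
    by_cases h : ij.1 < 0
    · rw [hx _ h, zero_mul]
    · rw [hy _ (by omega), mul_zero]
  · rw [coeff_mul]
    rw [Finset.sum_eq_single (0, 0)]
    · intro ij hij hne
      rw [Finset.mem_antidiagonal] at hij
      obtain ⟨h1, h2, h3⟩ := hij
      by_cases h : ij.1 < 0
      · rw [hx _ h, zero_mul]
      · by_cases h' : ij.2 < 0
        · rw [hy _ h', mul_zero]
        · exfalso; apply hne; ext
          · show ij.1 = 0
            omega
          · show ij.2 = 0
            omega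
    · intro hij
      rw [Finset.mem_antidiagonal] at hij
      by_cases h : x.coeff 0 = 0
      · simp [h]
      · by_cases h' : y.coeff 0 = 0
        · simp [h']
        · exact absurd ⟨h, h', by simp⟩ hij

lemma IsNeg.mul {x y : HahnSeries ℤ K} (hx : IsNeg x) (hy : IsNeg y) :
    IsNeg (x * y) ∧ (x * y).coeff 0 = x.coeff 0 * y.coeff 0 := by
  constructor
  · intro n hn
    rw [coeff_mul]
    refine Finset.sum_eq_zero fun ij hij => ?_
    rw [Finset.mem_antidiagonal] at hij
    obtain ⟨h1, h2, h3⟩ := hij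
    by_cases h : ij.1 > 0
    · rw [hx _ h, zero_mul]
    · rw [hy _ (by omega), mul_zero]
  · rw [coeff_mul]
    rw [Finset.sum_eq_single (0, 0)]
    · intro ij hij hne
      rw [Finset.mem_antidiagonal] at hij
      obtain ⟨h1, h2, h3⟩ := hij
      by_cases h : ij.1 > 0
      · rw [hx _ h, zero_mul]
      · by_cases h' : ij.2 > 0
        · rw [hy _ h', mul_zero]
        · exfalso; apply hne; ext
          · show ij.1 = 0
            omega
          · show ij.2 = 0
            omega
    · intro hij
      rw [Finset.mem_antidiagonal] at hij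
      by_cases h : x.coeff 0 = 0
      · simp [h]
      · by_cases h' : y.coeff 0 = 0
        · simp [h']
        · exact absurd ⟨h, h', by simp⟩ hij

lemma isPos_C (c : K) : IsPos (HahnSeries.C c : HahnSeries ℤ K) := by
  intro n hn
  simp [HahnSeries.C_apply, HahnSeries.coeff_single_of_ne hn.ne]

lemma isNeg_C (c : K) : IsNeg (HahnSeries.C c : HahnSeries ℤ K) := by
  intro n hn
  simp [HahnSeries.C_apply, HahnSeries.coeff_single_of_ne hn.ne']

lemma coeff_zero_C (c : K) : (HahnSeries.C c : HahnSeries ℤ K).coeff 0 = c := by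
  simp [HahnSeries.C_apply]

lemma IsPos.hatD [Algebra ℂ K] {x : HahnSeries ℤ K} (hx : IsPos x) (δ : Derivation ℂ K K) :
    IsPos (Run7.h457.hatD δ x) := by
  intro n hn; simp [hx n hn]

lemma IsNeg.hatD [Algebra ℂ K] {x : HahnSeries ℤ K} (hx : IsNeg x) (δ : Derivation ℂ K K) :
    IsNeg (Run7.h457.hatD δ x) := by
  intro n hn; simp [hx n hn]

/-- The inverse of a Laurent series with exponents `≥ 0` and nonzero constant coefficient. -/
lemma IsPos.inv {x : HahnSeries ℤ K} (hx : IsPos x) (h0 : x.coeff 0 ≠ 0) :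
    IsPos x⁻¹ ∧ (x⁻¹).coeff 0 = (x.coeff 0)⁻¹ := by
  have hx0 : x ≠ 0 := by
    rintro rfl; simp at h0
  have hord : x.order = 0 := by
    refine le_antisymm (HahnSeries.order_le_of_coeff_ne_zero h0) ?_
    by_contra hlt
    push Not at hlt
    have := hx _ hlt
    exact (HahnSeries.coeff_order_eq_zero.not.mpr hx0) this
  have hinv0 : x⁻¹ ≠ 0 := inv_ne_zero hx0
  have hmul : x * x⁻¹ = 1 := mul_inv_cancel₀ hx0
  have hord2 : (x⁻¹).order = 0 := by
    have h := HahnSeries.order_mul hx0 hinv0
    rw [hmul, HahnSeries.order_one, hord] at h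
    omega
  have hpos : IsPos x⁻¹ := by
    intro n hn
    exact HahnSeries.coeff_eq_zero_of_lt_order (by omega)
  refine ⟨hpos, ?_⟩
  have h := (hx.mul hpos).2
  rw [hmul, HahnSeries.coeff_one, if_pos rfl] at h
  exact eq_inv_of_mul_eq_one_right h.symm

end Laurent

section Pairing

open KaehlerDifferential

/-- For a field extension `σ : K → L` and a derivation `d` of `L`, the additive map
`Ω[K⁄ℂ] → L` with `a • D b ↦ σ a * d (σ b)`. -/
noncomputable def pairing {K L : Type*} [Field K] [Algebra ℂ K] [CommRing L] [Algebra ℂ L]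
    (σ : K →ₐ[ℂ] L) (d : Derivation ℂ L L) : Ω[K⁄ℂ] →+ L :=
  letI := σ.toRingHom.toAlgebra
  haveI : IsScalarTower ℂ K L := IsScalarTower.of_algebraMap_eq' σ.comp_algebraMap.symm
  ((d.compAlgebraMap K).liftKaehlerDifferential).toAddMonoidHom

lemma pairing_smul_D {K L : Type*} [Field K] [Algebra ℂ K] [CommRing L] [Algebra ℂ L]
    (σ : K →ₐ[ℂ] L) (d : Derivation ℂ L L) (a b : K) :
    pairing σ d (a • D ℂ K b) = σ a * d (σ b) := by
  letI := σ.toRingHom.toAlgebra
  haveI : IsScalarTower ℂ K L := IsScalarTower.of_algebraMap_eq' σ.comp_algebraMap.symm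
  have h : pairing σ d (a • D ℂ K b) = (d.compAlgebraMap K).liftKaehlerDifferential (a • D ℂ K b) :=
    rfl
  rw [h, map_smul, Derivation.liftKaehlerDifferential_comp_D]
  rfl

end Pairing

end Run7.h457
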