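import Mathlib
import Pool.Agent.Run7.h457.Laurent

namespace Run7.h457

open KaehlerDifferential

attribute [-instance] HahnSeries.powerSeriesAlgebra

variable {K : Type*} [Field K] [Algebra ℂ K]

/-- The additive group of rational differentials `∑ aⱼ D bⱼ` with `aⱼ, bⱼ ∈ A`. -/
noncomputable def regForms (A : Subalgebra ℂ K) : AddSubgroup (Ω[K⁄ℂ]) :=
  AddSubgroup.closure {w | ∃ a ∈ A, ∃ b ∈ A, w = a • D ℂ K b}

/-- The chart `ℂ[m / y : m ∈ V]`. -/
def chartV (V : Submodule ℂ K) (y : K) : Subalgebra ℂ K :=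
  Algebra.adjoin ℂ {z | ∃ m ∈ V, z = m / y}

/-- elements of `K` whose image is in the ring of series with exponents `≤ 0` and whose constant
coefficient is the element itself -/
noncomputable def negSub (σ : K →ₐ[ℂ] HahnSeries ℤ K) : Subalgebra ℂ K where
  carrier := {a | IsNeg (σ a) ∧ (σ a).coeff 0 = a}
  mul_mem' := by
    rintro a b ⟨ha, ha'⟩ ⟨hb, hb'⟩
    refine ⟨?_, ?_⟩
    · rw [map_mul]; exact (ha.mul hb).1
    · rw [map_mul, (ha.mul hb).2, ha', hb']
  add_mem' := by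
    rintro a b ⟨ha, ha'⟩ ⟨hb, hb'⟩
    refine ⟨?_, ?_⟩
    · rw [map_add]; exact ha.add hb
    · rw [map_add, HahnSeries.coeff_add, ha', hb']
  algebraMap_mem' := by
    intro c
    have h : σ (algebraMap ℂ K c) = HahnSeries.C (algebraMap ℂ K c) := by
      rw [AlgHom.commutes]; rfl
    refine ⟨?_, ?_⟩
    · rw [h]; exact isNeg_C _
    · rw [h]; exact coeff_zero_C _

/-- elements of `K` whose image is in the ring of series with exponents `≥ 0` and whose constant
coefficient is in a given subalgebra `B` -/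
noncomputable def posSub (σ : K →ₐ[ℂ] HahnSeries ℤ K) (B : Subalgebra ℂ K) :
    Subalgebra ℂ K where
  carrier := {a | IsPos (σ a) ∧ (σ a).coeff 0 ∈ B}
  mul_mem' := by
    rintro a b ⟨ha, ha'⟩ ⟨hb, hb'⟩
    refine ⟨?_, ?_⟩
    · rw [map_mul]; exact (ha.mul hb).1
    · rw [map_mul, (ha.mul hb).2]; exact B.mul_mem ha' hb'
  add_mem' := by
    rintro a b ⟨ha, ha'⟩ ⟨hb, hb'⟩
    refine ⟨?_, ?_⟩
    · rw [map_add]; exact ha.add hb
    · rw [map_add, HahnSeries.coeff_add]; exact B.add_mem ha' hb'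
  algebraMap_mem' := by
    intro c
    have h : σ (algebraMap ℂ K c) = HahnSeries.C (algebraMap ℂ K c) := by
      rw [AlgHom.commutes]; rfl
    refine ⟨?_, ?_⟩
    · rw [h]; exact isPos_C _
    · rw [h, coeff_zero_C]; exact B.algebraMap_mem c

lemma coeff_pairing_neg (σ : K →ₐ[ℂ] HahnSeries ℤ K) (δ : Derivation ℂ K K)
    (A : Subalgebra ℂ K) (hA : A ≤ negSub σ) (w : Ω[K⁄ℂ]) (hw : w ∈ regForms A) :
    (pairing σ (hatD δ) w).coeff 0 = δ.liftKaehlerDifferential w := by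
  induction hw using AddSubgroup.closure_induction with
  | mem x hx =>
    obtain ⟨a, ha, b, hb, rfl⟩ := hx
    rw [pairing_smul_D, map_smul, Derivation.liftKaehlerDifferential_comp_D]
    have h1 := hA ha
    have h2 := hA hb
    rw [(h1.1.mul (h2.1.hatD δ)).2, hatD_coeff, h1.2, h2.2, smul_eq_mul]
  | zero => simp
  | add x y _ _ hx hy => simp [hx, hy]
  | neg x _ hx => simp [hx]

lemma coeff_pairing_pos (σ : K →ₐ[ℂ] HahnSeries ℤ K) (δ : Derivation ℂ K K)
    (A : Subalgebra ℂ K) (τ : K) (hA : A ≤ posSub σ (Algebra.adjoin ℂ {τ}))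
    (w : Ω[K⁄ℂ]) (hw : w ∈ regForms A) :
    ∃ p : Polynomial ℂ, (pairing σ (hatD δ) w).coeff 0 = Polynomial.aeval τ p * δ τ := by
  induction hw using AddSubgroup.closure_induction with
  | mem x hx =>
    obtain ⟨a, ha, b, hb, rfl⟩ := hx
    rw [pairing_smul_D]
    have h1 := hA ha
    have h2 := hA hb
    obtain ⟨p, hp⟩ := (Algebra.adjoin_mem_exists_aeval ℂ τ h1.2)
    obtain ⟨q, hq⟩ := (Algebra.adjoin_mem_exists_aeval ℂ τ h2.2)
    refine ⟨p * Polynomial.derivative q, ?_⟩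
    rw [(h1.1.mul (h2.1.hatD δ)).2, hatD_coeff, ← hp, ← hq, δ.map_aeval, smul_eq_mul, map_mul,
      mul_assoc]
  | zero => exact ⟨0, by simp⟩
  | add x y _ _ hx hy =>
    obtain ⟨p, hp⟩ := hx
    obtain ⟨q, hq⟩ := hy
    exact ⟨p + q, by simp [hp, hq, add_mul]⟩
  | neg x _ hx =>
    obtain ⟨p, hp⟩ := hx
    exact ⟨-p, by simp [hp]⟩

lemma transcendental_of_der (δ : Derivation ℂ K K) (τ : K) (h : δ τ ≠ 0) :
    Transcendental ℂ τ := by
  intro halg
  apply h
  have hint : IsIntegral ℂ τ := halg.isIntegral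
  have hdeg := IsAlgClosed.degree_eq_one_of_irreducible ℂ (minpoly.irreducible hint)
  obtain ⟨c, hc⟩ := minpoly.mem_range_of_degree_eq_one ℂ τ hdeg
  rw [← hc]
  exact δ.map_algebraMap c

/-- The polynomial argument: a form on the projective line regular in both charts vanishes. -/
lemma p1_argument (τ : K) (hτ : Transcendental ℂ τ) (p q : Polynomial ℂ)
    (h : Polynomial.aeval τ p = - (Polynomial.aeval τ⁻¹ q * τ⁻¹ ^ 2)) : p = 0 := by
  have hτ0 : τ ≠ 0 := by
    rintro rfl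
    exact hτ (isAlgebraic_zero)
  let _ : Invertible τ⁻¹ := invertibleOfNonzero (inv_ne_zero hτ0)
  have hinv : ⅟ (τ⁻¹) = τ := by
    rw [invOf_eq_inv, inv_inv]
  have h1 := Polynomial.eval₂_reverse_mul_pow (algebraMap ℂ K) τ⁻¹ q
  rw [hinv] at h1
  have h2 : Polynomial.aeval τ (Polynomial.X ^ (q.natDegree + 2) * p + q.reverse) = 0 := by
    rw [map_add, map_mul, map_pow, Polynomial.aeval_X, h]
    have h3 : Polynomial.aeval τ⁻¹ q = Polynomial.aeval τ q.reverse * τ⁻¹ ^ q.natDegree := h1.symm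
    have h8 : τ ^ q.natDegree * τ⁻¹ ^ q.natDegree = 1 := by
      rw [← mul_pow, mul_inv_cancel₀ hτ0, one_pow]
    have h9 : τ ^ 2 * τ⁻¹ ^ 2 = 1 := by
      rw [← mul_pow, mul_inv_cancel₀ hτ0, one_pow]
    rw [h3, pow_add]
    linear_combination (-(Polynomial.aeval τ) q.reverse * (τ ^ 2 * τ⁻¹ ^ 2)) * h8 -
      (Polynomial.aeval τ) q.reverse * h9
  have h4 : Polynomial.X ^ (q.natDegree + 2) * p + q.reverse = 0 := by
    by_contra hne
    exact hτ ⟨_, hne, h2⟩
  by_contra hp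
  have h5 : q.reverse = - (Polynomial.X ^ (q.natDegree + 2) * p) := by
    rw [eq_neg_iff_add_eq_zero, add_comm]; exact h4
  have h6 : q.reverse.natDegree = q.natDegree + 2 + p.natDegree := by
    rw [h5, Polynomial.natDegree_neg, Polynomial.natDegree_mul (by simp) hp,
      Polynomial.natDegree_X_pow]
  have h7 := q.reverse_natDegree_le
  omega

/-- **Key lemma.** -/
theorem key (σ : K →ₐ[ℂ] HahnSeries ℤ K) (δ : Derivation ℂ K K) (V : Submodule ℂ K)
    (y : K) (hyV : y ∈ V) (hy : y ≠ 0)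
    (hneg : ∀ m ∈ V, IsNeg (σ (m / y)) ∧ (σ (m / y)).coeff 0 = m / y)
    (H : HahnSeries ℤ K) (lam : K → K)
    (hpos : ∀ m ∈ V, IsPos (H * σ m) ∧ (H * σ m).coeff 0 = lam m)
    (u v : K) (hu : u ∈ V) (hv : v ∈ V) (hlu : lam u ≠ 0)
    (hspan : ∀ m ∈ V, ∃ α β : ℂ, lam m = α • lam u + β • lam v)
    (w : Ω[K⁄ℂ]) (hw : ∀ z ∈ V, z ≠ 0 → w ∈ regForms (chartV V z)) :
    δ.liftKaehlerDifferential w = 0 := by
  -- the chart at `y`
  have hneg' : chartV V y ≤ negSub σ := by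
    refine Algebra.adjoin_le ?_
    rintro z ⟨m, hm, rfl⟩
    exact hneg m hm
  have h0 := coeff_pairing_neg σ δ _ hneg' w (hw y hyV hy)
  -- ratios in the other charts
  have hratio : ∀ z ∈ V, lam z ≠ 0 → z ≠ 0 ∧ ∀ m ∈ V, IsPos (σ (m / z)) ∧
      (σ (m / z)).coeff 0 = lam m / lam z := by
    intro z hz hlz
    have hz0 : z ≠ 0 := by
      rintro rfl
      apply hlz
      rw [← (hpos 0 V.zero_mem).2]; simp
    refine ⟨hz0, fun m hm => ?_⟩
    obtain ⟨h1, h2⟩ := hpos m hm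
    obtain ⟨h3, h4⟩ := hpos z hz
    have h5 := h3.inv (by rw [h4]; exact hlz)
    have hne : H * σ z ≠ 0 := by
      intro h; rw [h] at h4; exact hlz (by rw [← h4]; simp)
    have hH : H ≠ 0 := left_ne_zero_of_mul hne
    have h6 : σ (m / z) = (H * σ m) * (H * σ z)⁻¹ := by
      rw [map_div₀, mul_inv]
      field_simp
    rw [h6]
    refine ⟨(h1.mul h5.1).1, ?_⟩
    rw [(h1.mul h5.1).2, h5.2, h2, h4, div_eq_mul_inv]
  set τ : K := lam v / lam u with hτ
  have hchu : chartV V u ≤ posSub σ (Algebra.adjoin ℂ {τ}) := by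
    refine Algebra.adjoin_le ?_
    rintro z ⟨m, hm, rfl⟩
    obtain ⟨h1, h2⟩ := (hratio u hu hlu).2 m hm
    refine ⟨h1, ?_⟩
    rw [h2]
    obtain ⟨α, β, hαβ⟩ := hspan m hm
    have : lam m / lam u = algebraMap ℂ K α + β • τ := by
      rw [hαβ, hτ, Algebra.smul_def, Algebra.smul_def, Algebra.smul_def]
      field_simp
    rw [this]
    have hτm : τ ∈ Algebra.adjoin ℂ {τ} := Algebra.self_mem_adjoin_singleton ℂ τ
    exact (Algebra.adjoin ℂ {τ}).add_mem ((Algebra.adjoin ℂ {τ}).algebraMap_mem α)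
      ((Algebra.adjoin ℂ {τ}).smul_mem hτm β)
  obtain ⟨p, hp⟩ := coeff_pairing_pos σ δ _ τ hchu w (hw u hu (hratio u hu hlu).1)
  rw [h0] at hp
  by_cases hδ : δ τ = 0
  · rw [hp, hδ, mul_zero]
  have hlv : lam v ≠ 0 := by
    intro h
    apply hδ
    rw [hτ, h, zero_div, map_zero]
  have hchv : chartV V v ≤ posSub σ (Algebra.adjoin ℂ {τ⁻¹}) := by
    refine Algebra.adjoin_le ?_
    rintro z ⟨m, hm, rfl⟩
    obtain ⟨h1, h2⟩ := (hratio v hv hlv).2 m hm
    refine ⟨h1, ?_⟩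
    rw [h2]
    obtain ⟨α, β, hαβ⟩ := hspan m hm
    have : lam m / lam v = α • τ⁻¹ + algebraMap ℂ K β := by
      rw [hαβ, hτ, Algebra.smul_def, Algebra.smul_def, Algebra.smul_def]
      field_simp
    rw [this]
    have hτm : τ⁻¹ ∈ Algebra.adjoin ℂ {τ⁻¹} := Algebra.self_mem_adjoin_singleton ℂ τ⁻¹
    exact (Algebra.adjoin ℂ {τ⁻¹}).add_mem ((Algebra.adjoin ℂ {τ⁻¹}).smul_mem hτm α)
      ((Algebra.adjoin ℂ {τ⁻¹}).algebraMap_mem β)
  obtain ⟨q, hq⟩ := coeff_pairing_pos σ δ _ τ⁻¹ hchv w (hw v hv (hratio v hv hlv).1)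
  rw [h0] at hq
  have htr := transcendental_of_der δ τ hδ
  have hpq : Polynomial.aeval τ p = - (Polynomial.aeval τ⁻¹ q * τ⁻¹ ^ 2) := by
    have h1 : Polynomial.aeval τ p * δ τ = - (Polynomial.aeval τ⁻¹ q * τ⁻¹ ^ 2) * δ τ := by
      rw [← hp, hq, δ.leibniz_inv, smul_eq_mul]; ring
    exact mul_right_cancel₀ hδ h1
  rw [hp, p1_argument τ htr p q hpq]
  simp

/-- A rational differential killed by all derivations of `K` vanishes. -/
lemma eq_zero_of_forall_der (w : Ω[K⁄ℂ])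
    (h : ∀ δ : Derivation ℂ K K, δ.liftKaehlerDifferential w = 0) : w = 0 := by
  rw [← Module.forall_dual_apply_eq_zero_iff K]
  intro f
  have := h (KaehlerDifferential.linearMapEquivDerivation ℂ K f)
  have h2 : (KaehlerDifferential.linearMapEquivDerivation ℂ K f).liftKaehlerDifferential = f := by
    exact (KaehlerDifferential.linearMapEquivDerivation ℂ K).symm_apply_apply f
  rwa [h2] at this

end Run7.h457
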