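import Mathlib
import Pool.Agent.Run7.h457.Laurent

namespace Run7.h457

attribute [-instance] HahnSeries.powerSeriesAlgebra

/-- Descend a homomorphism along a surjection and extend it to the fraction field. -/
lemma exists_extend {S R K L : Type*} [CommRing S] [Algebra ℂ S] [CommRing R] [IsDomain R]
    [Algebra ℂ R] [Field K] [Algebra ℂ K] [Algebra R K] [IsScalarTower ℂ R K]
    [IsFractionRing R K] [Field L] [Algebra ℂ L]
    (π : S →ₐ[ℂ] R) (hπ : Function.Surjective π) (g : S →ₐ[ℂ] L)
    (hg : ∀ f, π f = 0 ↔ g f = 0) :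
    ∃ σ : K →ₐ[ℂ] L, ∀ f, σ (algebraMap R K (π f)) = g f := by
  have H : RingHom.ker π.toRingHom ≤ RingHom.ker g.toRingHom := by
    intro f hf
    exact (hg f).mp hf
  let ρ : R →ₐ[ℂ] L := AlgHom.liftOfSurjective π hπ g H
  have hρ : ∀ f, ρ (π f) = g f := fun f => AlgHom.liftOfSurjective_apply π hπ g H f
  have hinj : Function.Injective ρ := by
    rw [injective_iff_map_eq_zero]
    intro r hr
    obtain ⟨f, rfl⟩ := hπ r
    rw [hρ] at hr
    exact (hg f).mpr hr
  refine ⟨IsFractionRing.liftAlgHom (K := K) (g := ρ) hinj, fun f => ?_⟩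
  rw [IsFractionRing.liftAlgHom_apply, IsFractionRing.lift_algebraMap]
  exact hρ f

section
variable {K : Type*} [Field K] [Algebra ℂ K]

/-- The variable `T = s⁻¹` of `K((s))`. -/
noncomputable def TT : HahnSeries ℤ K := HahnSeries.single (-1) 1

lemma TT_pow (n : ℕ) : (TT : HahnSeries ℤ K) ^ n = HahnSeries.single (-(n : ℤ)) 1 := by
  rw [TT, HahnSeries.single_pow]
  simp

/-- The embedding `K[T] → K((s))`, `T = s⁻¹`. -/
noncomputable def polyToL : Polynomial K →+* HahnSeries ℤ K :=
  Polynomial.eval₂RingHom (HahnSeries.C) TT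

lemma polyToL_monomial (n : ℕ) (a : K) :
    polyToL (Polynomial.monomial n a) = HahnSeries.single (-(n : ℤ)) a := by
  rw [polyToL, Polynomial.coe_eval₂RingHom, Polynomial.eval₂_monomial, TT_pow,
    HahnSeries.C_apply, HahnSeries.single_mul_single]
  simp

lemma polyToL_coeff_neg (p : Polynomial K) (n : ℕ) :
    (polyToL p).coeff (-(n : ℤ)) = p.coeff n := by
  induction p using Polynomial.induction_on' with
  | add p q hp hq => rw [map_add, HahnSeries.coeff_add, hp, hq, Polynomial.coeff_add]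
  | monomial m a =>
    rw [polyToL_monomial, Polynomial.coeff_monomial]
    by_cases h : m = n
    · subst h; simp
    · rw [if_neg h, HahnSeries.coeff_single_of_ne]
      omega

lemma polyToL_isNeg (p : Polynomial K) : IsNeg (polyToL p) := by
  induction p using Polynomial.induction_on' with
  | add p q hp hq => rw [map_add]; exact hp.add hq
  | monomial m a =>
    rw [polyToL_monomial]
    intro n hn
    rw [HahnSeries.coeff_single_of_ne]
    omega

lemma polyToL_coeff_zero (p : Polynomial K) : (polyToL p).coeff 0 = p.coeff 0 := by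
  have := polyToL_coeff_neg p 0
  simpa using this

/-- `s ^ k` times a polynomial in `T = s⁻¹` of degree at most `k`. -/
lemma shift_polyToL (p : Polynomial K) (k : ℕ) (hp : p.natDegree ≤ k) :
    IsPos (HahnSeries.single (k : ℤ) 1 * polyToL p) ∧
      (HahnSeries.single (k : ℤ) 1 * polyToL p).coeff 0 = p.coeff k := by
  have h1 : ∀ n : ℤ, (HahnSeries.single (k : ℤ) 1 * polyToL p).coeff n =
      (polyToL p).coeff (n - k) := by
    intro n
    rw [HahnSeries.coeff_single_mul, one_mul]
  constructor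
  · intro n hn
    rw [h1]
    have : n - k = -((k - n).toNat : ℤ) := by omega
    rw [this, polyToL_coeff_neg]
    apply Polynomial.coeff_eq_zero_of_natDegree_lt
    omega
  · rw [h1, zero_sub, polyToL_coeff_neg]

/-- The unit `1 + T` of `K((s))`. -/
noncomputable def UU : HahnSeries ℤ K := 1 + TT

lemma UU_pow_isNeg (n : ℕ) : IsNeg ((UU : HahnSeries ℤ K) ^ n) ∧
    ((UU : HahnSeries ℤ K) ^ n).coeff 0 = 1 := by
  have h : (UU : HahnSeries ℤ K) = polyToL (1 + Polynomial.X) := by
    rw [map_add, map_one, polyToL, Polynomial.coe_eval₂RingHom, Polynomial.eval₂_X, UU]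
  rw [h, ← map_pow]
  refine ⟨polyToL_isNeg _, ?_⟩
  rw [polyToL_coeff_zero, Polynomial.coeff_zero_eq_eval_zero]
  simp

lemma UU_inv_isPos : IsPos ((UU : HahnSeries ℤ K)⁻¹) ∧
    ((UU : HahnSeries ℤ K)⁻¹).coeff 0 = 0 := by
  -- `s * U = 1 + s`
  have h1 : (UU : HahnSeries ℤ K) = HahnSeries.single (-1) 1 * (1 + HahnSeries.single 1 1) := by
    rw [mul_add, mul_one, HahnSeries.single_mul_single, UU, TT]
    simp [add_comm]
  have hpos1 : IsPos (HahnSeries.single 1 1 : HahnSeries ℤ K) := by
    intro n hn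
    rw [HahnSeries.coeff_single_of_ne]; omega
  have hpos : IsPos (1 + HahnSeries.single 1 1 : HahnSeries ℤ K) := by
    refine IsPos.add ?_ hpos1
    have := isPos_C (K := K) 1
    rwa [map_one] at this
  have hc0 : (1 + HahnSeries.single 1 1 : HahnSeries ℤ K).coeff 0 = 1 := by
    simp
  have hinv := hpos.inv (by rw [hc0]; exact one_ne_zero)
  have h2 : (UU : HahnSeries ℤ K)⁻¹ =
      HahnSeries.single 1 1 * (1 + HahnSeries.single 1 1 : HahnSeries ℤ K)⁻¹ := by
    rw [h1, mul_inv, HahnSeries.inv_single]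
    simp
  rw [h2]
  have h3 := hpos1.mul hinv.1
  refine ⟨h3.1, ?_⟩
  rw [h3.2]
  simp

lemma UU_inv_pow_isPos (n : ℕ) : IsPos (((UU : HahnSeries ℤ K)⁻¹) ^ n) ∧
    (((UU : HahnSeries ℤ K)⁻¹) ^ n).coeff 0 = if n = 0 then 1 else 0 := by
  induction n with
  | zero =>
    rw [pow_zero]
    have := isPos_C (K := K) 1
    have h0 := coeff_zero_C (K := K) 1
    rw [map_one] at this h0
    exact ⟨this, by simpa using h0⟩
  | succ n ih =>
    rw [pow_succ]
    have h := ih.1.mul UU_inv_isPos.1
    refine ⟨h.1, ?_⟩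
    rw [h.2, UU_inv_isPos.2, mul_zero]
    simp

lemma UU_ne_zero : (UU : HahnSeries ℤ K) ≠ 0 := by
  intro h
  have := (UU_pow_isNeg (K := K) 1).2
  rw [pow_one, h] at this
  simp at this

end

end Run7.h457
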