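import Mathlib
import Pool.Agent.Run7.h457.Defs
import Pool.Agent.Run7.h457.Laurent
import Pool.Agent.Run7.h457.Maps
import Pool.Agent.Run7.h457.Key

namespace Run7.h457

attribute [-instance] HahnSeries.powerSeriesAlgebra

open MvPolynomial

/-- The linear form `∑ᵢ cᵢ xᵢ` with coefficient vector `c`. -/
noncomputable def lin : (Fin 5 → ℂ) →ₗ[ℂ] S5 where
  toFun c := ∑ i, C (c i) * X i
  map_add' c d := by
    simp [add_mul, Finset.sum_add_distrib]
  map_smul' a c := by
    simp [Finset.smul_sum, MvPolynomial.smul_eq_C_mul, mul_assoc]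

lemma lin_apply (c : Fin 5 → ℂ) : lin c = ∑ i, C (c i) * X i := rfl

lemma linearVF_X (A : Matrix (Fin 5) (Fin 5) ℂ) (i : Fin 5) :
    linearVF A (X i) = ∑ j, C (A i j) * X j := by
  rw [linearVF, mkDerivation_X]

lemma lin_single (i : Fin 5) : lin (Pi.single i 1) = X i := by
  rw [lin_apply, Finset.sum_eq_single i]
  · simp
  · intro j _ hj; simp [Pi.single_eq_of_ne hj]
  · simp

lemma linearVF_lin (A : Matrix (Fin 5) (Fin 5) ℂ) (c : Fin 5 → ℂ) :
    linearVF A (lin c) = lin (Matrix.vecMul c A) := by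
  rw [lin_apply, lin_apply, map_sum]
  have h1 : ∀ i, linearVF A (C (c i) * X i) = ∑ j, C (c i * A i j) * X j := by
    intro i
    rw [Derivation.leibniz, linearVF_X, ← MvPolynomial.algebraMap_eq, Derivation.map_algebraMap,
      smul_zero, add_zero, Finset.smul_sum]
    refine Finset.sum_congr rfl fun j _ => ?_
    rw [MvPolynomial.algebraMap_eq, C_mul, smul_eq_mul, mul_assoc]
  rw [Finset.sum_congr rfl fun i _ => h1 i, Finset.sum_comm]
  refine Finset.sum_congr rfl fun j _ => ?_
  rw [← Finset.sum_mul, ← map_sum]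
  rfl

variable {K : Type*} [Field K] [Algebra ℂ K]

/-- The exponential of a nilpotent linear vector field, as a homomorphism into `K[T]`. -/
noncomputable def expHom (ev : S5 →ₐ[ℂ] K) (N : Matrix (Fin 5) (Fin 5) ℂ) :
    S5 →ₐ[ℂ] Polynomial K :=
  aeval (fun i => ∑ m ∈ Finset.range 5, Polynomial.monomial m
    (((m.factorial : ℂ)⁻¹) • ev (lin (Matrix.vecMul (Pi.single i 1) (N ^ m)))))

lemma expHom_lin (ev : S5 →ₐ[ℂ] K) (N : Matrix (Fin 5) (Fin 5) ℂ) (c : Fin 5 → ℂ) :
    expHom ev N (lin c) = ∑ m ∈ Finset.range 5, Polynomial.monomial m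
      (((m.factorial : ℂ)⁻¹) • ev (lin (Matrix.vecMul c (N ^ m)))) := by
  rw [lin_apply, map_sum]
  have h1 : ∀ i, expHom ev N (C (c i) * X i) = ∑ m ∈ Finset.range 5, Polynomial.monomial m
      (((m.factorial : ℂ)⁻¹) • (c i • ev (lin (Matrix.vecMul (Pi.single i 1) (N ^ m))))) := by
    intro i
    rw [map_mul, expHom, aeval_X, MvPolynomial.aeval_C, Finset.mul_sum]
    refine Finset.sum_congr rfl fun m _ => ?_
    rw [← Algebra.smul_def, Polynomial.smul_monomial, smul_comm]
  rw [Finset.sum_congr rfl fun i _ => h1 i, Finset.sum_comm]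
  refine Finset.sum_congr rfl fun m _ => ?_
  rw [← map_sum, ← Finset.smul_sum]
  congr 2
  have h2 : c = ∑ i, c i • (Pi.single i (1 : ℂ) : Fin 5 → ℂ) := by
    funext j
    simp [Finset.sum_apply, Pi.single_apply]
  conv_rhs => rw [h2]
  have h3 : Matrix.vecMul (∑ i, c i • (Pi.single i (1 : ℂ) : Fin 5 → ℂ)) (N ^ m) =
      ∑ i, c i • Matrix.vecMul (Pi.single i (1 : ℂ)) (N ^ m) := by
    have := map_sum (Matrix.vecMulLinear (N ^ m))
      (fun i => c i • (Pi.single i (1 : ℂ) : Fin 5 → ℂ)) Finset.univ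
    rw [Matrix.vecMulLinear_apply] at this
    rw [this]
    refine Finset.sum_congr rfl fun i _ => ?_
    rw [map_smul, Matrix.vecMulLinear_apply]
  rw [h3, map_sum, map_sum]
  refine Finset.sum_congr rfl fun i _ => ?_
  rw [map_smul, map_smul]

lemma expHom_coeff_zero (ev : S5 →ₐ[ℂ] K) (N : Matrix (Fin 5) (Fin 5) ℂ) (f : S5) :
    (expHom ev N f).coeff 0 = ev f := by
  induction f using MvPolynomial.induction_on with
  | C a =>
    rw [← MvPolynomial.algebraMap_eq, AlgHom.commutes, AlgHom.commutes,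
      Polynomial.algebraMap_apply, Polynomial.coeff_C_zero]
  | add p q hp hq => rw [map_add, Polynomial.coeff_add, hp, hq, map_add]
  | mul_X p i hp =>
    rw [map_mul, Polynomial.mul_coeff_zero, hp, map_mul]
    congr 1
    rw [expHom, aeval_X, Polynomial.finsetSum_coeff, Finset.sum_eq_single 0]
    · simp [lin_single]
    · intro m _ hm
      rw [Polynomial.coeff_monomial, if_neg hm]
    · simp

lemma derivative_expHom (ev : S5 →ₐ[ℂ] K) (N : Matrix (Fin 5) (Fin 5) ℂ) (hN : N ^ 5 = 0)
    (f : S5) : Polynomial.derivative (expHom ev N f) = expHom ev N (linearVF N f) := by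
  induction f using MvPolynomial.induction_on with
  | C a =>
    rw [← MvPolynomial.algebraMap_eq, AlgHom.commutes, Derivation.map_algebraMap, map_zero,
      Polynomial.algebraMap_apply, Polynomial.derivative_C]
  | add p q hp hq => rw [map_add, map_add, hp, hq, map_add, map_add]
  | mul_X p i hp =>
    rw [map_mul, Polynomial.derivative_mul, hp, Derivation.leibniz, map_add, smul_eq_mul,
      smul_eq_mul, map_mul, map_mul]
    have hX : Polynomial.derivative (expHom ev N (X i)) = expHom ev N (linearVF N (X i)) := by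
      rw [← lin_single, linearVF_lin, expHom_lin, expHom_lin, map_sum,
        Finset.sum_range_succ', Finset.sum_range_succ (n := 4)]
      have h5 : Matrix.vecMul (Matrix.vecMul (Pi.single i 1) N) (N ^ 4) = 0 := by
        rw [Matrix.vecMul_vecMul, ← pow_succ', hN, Matrix.vecMul_zero]
      rw [h5, map_zero, map_zero, smul_zero, map_zero, add_zero]
      have h0 : Polynomial.derivative (Polynomial.monomial 0
          (((Nat.factorial 0 : ℂ)⁻¹) • ev (lin (Matrix.vecMul (Pi.single i 1) (N ^ 0))))) = 0 := by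
        rw [Polynomial.derivative_monomial]; simp
      rw [h0, add_zero]
      refine Finset.sum_congr rfl fun m _ => ?_
      rw [Polynomial.derivative_monomial, Matrix.vecMul_vecMul, ← pow_succ', Nat.add_sub_cancel]
      congr 1
      rw [Algebra.smul_def, Algebra.smul_def]
      have hm : ((m + 1 : ℕ) : K) = algebraMap ℂ K ((m + 1 : ℕ) : ℂ) := by simp
      rw [hm, mul_right_comm, ← map_mul]
      congr 2
      rw [Nat.factorial_succ, Nat.cast_mul]
      have h1 : ((m + 1 : ℕ) : ℂ) ≠ 0 := by exact_mod_cast Nat.succ_ne_zero m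
      have h2 : ((m.factorial : ℕ) : ℂ) ≠ 0 := by exact_mod_cast m.factorial_ne_zero
      field_simp
    rw [hX]
    ring

lemma expHom_coeff (ev : S5 →ₐ[ℂ] K) (N : Matrix (Fin 5) (Fin 5) ℂ) (hN : N ^ 5 = 0)
    (I : Ideal S5) (hev : ∀ f, ev f = 0 ↔ f ∈ I) (hI : ∀ f ∈ I, linearVF N f ∈ I)
    (m : ℕ) : ∀ f ∈ I, (expHom ev N f).coeff m = 0 := by
  have hchar : CharZero K := charZero_of_injective_algebraMap (algebraMap ℂ K).injective
  induction m with
  | zero =>
    intro f hf
    rw [expHom_coeff_zero]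
    exact (hev f).mpr hf
  | succ m ih =>
    intro f hf
    have h1 := ih _ (hI f hf)
    rw [← derivative_expHom ev N hN, Polynomial.coeff_derivative] at h1
    rcases mul_eq_zero.mp h1 with h | h
    · exact h
    · exfalso
      have : ((m + 1 : ℕ) : K) = 0 := by push_cast; exact h
      exact (Nat.cast_ne_zero.mpr (Nat.succ_ne_zero m)) this

end Run7.h457
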