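import Mathlib
import Pool.Agent.Run7.h457.Laurent
import Pool.Agent.Run7.h457.Maps
import Pool.Agent.Run7.h457.Key
import Pool.Agent.Run7.h457.Ga

namespace Run7.h457

attribute [-instance] HahnSeries.powerSeriesAlgebra

open MvPolynomial KaehlerDifferential

/-- A nonzero subspace of dimension at most two is spanned by a nonzero vector and another one. -/
lemma exists_two_span {M : Type*} [AddCommGroup M] [Module ℂ M] (W : Submodule ℂ M)
    [FiniteDimensional ℂ W] (h2 : Module.finrank ℂ W ≤ 2) (h0 : W ≠ ⊥) :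
    ∃ w1 ∈ W, ∃ w2 ∈ W, w1 ≠ 0 ∧ ∀ w ∈ W, ∃ α β : ℂ, w = α • w1 + β • w2 := by
  have hpos : 0 < Module.finrank ℂ W := by
    rw [Module.finrank_pos_iff]
    exact Submodule.nontrivial_iff_ne_bot.mpr h0
  let b := Module.finBasis ℂ W
  have h12 : Module.finrank ℂ W = 1 ∨ Module.finrank ℂ W = 2 := by omega
  rcases h12 with h | h
  · let b' := b.reindex (finCongr h)
    refine ⟨b' 0, (b' 0).2, b' 0, (b' 0).2, ?_, ?_⟩
    · exact fun hh => b'.ne_zero 0 (Subtype.ext hh)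
    · intro w hw
      have h3 := b'.sum_repr ⟨w, hw⟩
      rw [Fin.sum_univ_one] at h3
      refine ⟨b'.repr ⟨w, hw⟩ 0, 0, ?_⟩
      have h4 := congrArg Subtype.val h3
      rw [zero_smul, add_zero]
      exact h4.symm
  · let b' := b.reindex (finCongr h)
    refine ⟨b' 0, (b' 0).2, b' 1, (b' 1).2, ?_, ?_⟩
    · exact fun hh => b'.ne_zero 0 (Subtype.ext hh)
    · intro w hw
      have h3 := b'.sum_repr ⟨w, hw⟩
      rw [Fin.sum_univ_two] at h3
      refine ⟨b'.repr ⟨w, hw⟩ 0, b'.repr ⟨w, hw⟩ 1, ?_⟩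
      have h4 := congrArg Subtype.val h3
      exact h4.symm

variable {K : Type*} [Field K] [Algebra ℂ K]

/-- Linear forms as elements of `K`. -/
noncomputable def LV (ev : S5 →ₐ[ℂ] K) : (Fin 5 → ℂ) →ₗ[ℂ] K := ev.toLinearMap ∘ₗ lin

lemma LV_apply (ev : S5 →ₐ[ℂ] K) (c : Fin 5 → ℂ) : LV ev c = ev (lin c) := rfl

/-- If `N ^ (k+1) = 0` with `k ≥ 1` then `N ^ k` has rank at most two. -/
lemma rank_top_power (T : Module.End ℂ (Fin 5 → ℂ)) (k : ℕ) (hk : 1 ≤ k) (hT : T ^ (k + 1) = 0) :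
    Module.finrank ℂ (LinearMap.range (T ^ k)) ≤ 2 := by
  have h1 : LinearMap.range (T ^ k) ≤ LinearMap.ker T := by
    rintro _ ⟨x, rfl⟩
    rw [LinearMap.mem_ker]
    have : (T ^ (k + 1)) x = 0 := by rw [hT]; rfl
    rwa [pow_succ', Module.End.mul_apply] at this
  have h2 : LinearMap.range (T ^ k) ≤ LinearMap.range T := by
    rintro _ ⟨x, rfl⟩
    obtain ⟨j, rfl⟩ := Nat.exists_eq_add_of_le hk
    rw [add_comm, pow_succ', Module.End.mul_apply]
    exact ⟨_, rfl⟩
  have h3 := LinearMap.finrank_range_add_finrank_ker T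
  have h4 := Submodule.finrank_mono h1
  have h5 := Submodule.finrank_mono h2
  have h6 : Module.finrank ℂ (Fin 5 → ℂ) = 5 := by simp
  omega

lemma vecMul_pow (N : Matrix (Fin 5) (Fin 5) ℂ) (k : ℕ) (c : Fin 5 → ℂ) :
    ((Matrix.vecMulLinear N : Module.End ℂ (Fin 5 → ℂ)) ^ k) c = Matrix.vecMul c (N ^ k) := by
  induction k with
  | zero => simp
  | succ k ih =>
    rw [pow_succ', Module.End.mul_apply, ih, Matrix.vecMulLinear_apply, Matrix.vecMul_vecMul,
      ← pow_succ]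

theorem ga_case (I : Ideal S5) (ev : S5 →ₐ[ℂ] K)
    (hext : ∀ (g : S5 →ₐ[ℂ] HahnSeries ℤ K), (∀ f, f ∈ I ↔ g f = 0) →
      ∃ σ : K →ₐ[ℂ] HahnSeries ℤ K, ∀ f, σ (ev f) = g f)
    (hev : ∀ f, ev f = 0 ↔ f ∈ I)
    (hnd : ∀ c, lin c ∈ I → c = 0)
    (N : Matrix (Fin 5) (Fin 5) ℂ) (hN0 : N ≠ 0) (hN : N ^ 5 = 0)
    (hI : ∀ f ∈ I, linearVF N f ∈ I)
    (w : Ω[K⁄ℂ])
    (hw : ∀ z ∈ LinearMap.range (LV ev), z ≠ 0 →
      w ∈ regForms (chartV (LinearMap.range (LV ev)) z)) : w = 0 := by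
  classical
  have hLV0 : ∀ c, LV ev c = 0 → c = 0 := fun c hc => hnd c ((hev _).mp hc)
  -- the exponent `k`
  obtain ⟨k, hk1, hk, hk'⟩ : ∃ k : ℕ, 1 ≤ k ∧ N ^ k ≠ 0 ∧ N ^ (k + 1) = 0 := by
    have hex : ∃ m, N ^ m = 0 := ⟨5, hN⟩
    have h0 : Nat.find hex ≠ 0 := by
      intro h
      have := Nat.find_spec hex
      rw [h, pow_zero] at this
      exact one_ne_zero this
    have h1 : Nat.find hex ≠ 1 := by
      intro h
      have := Nat.find_spec hex
      rw [h, pow_one] at this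
      exact hN0 this
    refine ⟨Nat.find hex - 1, by omega, Nat.find_min hex (by omega), ?_⟩
    have h2 : Nat.find hex - 1 + 1 = Nat.find hex := by omega
    rw [h2]
    exact Nat.find_spec hex
  -- the homomorphism
  let g : S5 →ₐ[ℂ] HahnSeries ℤ K :=
    { toRingHom := polyToL.comp (expHom ev N).toRingHom
      commutes' := by
        intro c
        change polyToL (expHom ev N (algebraMap ℂ S5 c)) = _
        rw [AlgHom.commutes, Polynomial.algebraMap_apply, polyToL, Polynomial.coe_eval₂RingHom,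
          Polynomial.eval₂_C]
        rfl }
  have hg : ∀ f, g f = polyToL (expHom ev N f) := fun f => rfl
  have hgI : ∀ f, f ∈ I ↔ g f = 0 := by
    intro f
    constructor
    · intro hf
      have : expHom ev N f = 0 := by
        ext m
        rw [expHom_coeff ev N hN I hev hI m f hf, Polynomial.coeff_zero]
      rw [hg, this, map_zero]
    · intro hf
      rw [← hev, ← expHom_coeff_zero ev N, ← polyToL_coeff_zero, ← hg, hf, HahnSeries.coeff_zero]
  obtain ⟨σ, hσ⟩ := hext g hgI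
  have hσ0 : ∀ c, IsNeg (σ (LV ev c)) ∧ (σ (LV ev c)).coeff 0 = LV ev c := by
    intro c
    rw [LV_apply, hσ, hg]
    exact ⟨polyToL_isNeg _, by rw [polyToL_coeff_zero, expHom_coeff_zero]⟩
  -- the kernel vector
  obtain ⟨c0, hc0, hc0N⟩ : ∃ c0, c0 ≠ 0 ∧ Matrix.vecMul c0 N = 0 := by
    have : ∃ c, Matrix.vecMul c (N ^ k) ≠ 0 := by
      by_contra hcon
      push Not at hcon
      apply hk
      apply Matrix.ext_of_single_vecMul
      intro c
      rw [hcon, Matrix.vecMul_zero]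
    obtain ⟨c, hc⟩ := this
    refine ⟨_, hc, ?_⟩
    rw [Matrix.vecMul_vecMul, ← pow_succ, hk', Matrix.vecMul_zero]
  have hy0 : LV ev c0 ≠ 0 := fun h => hc0 (hLV0 _ h)
  have hσy : σ (LV ev c0) = HahnSeries.C (LV ev c0) := by
    rw [LV_apply, hσ, hg, expHom_lin, Finset.sum_eq_single 0]
    · rw [pow_zero, Matrix.vecMul_one, Nat.factorial_zero, Nat.cast_one, inv_one, one_smul,
        polyToL_monomial]
      simp [HahnSeries.C_apply]
    · intro m _ hm
      obtain ⟨j, rfl⟩ := Nat.exists_eq_succ_of_ne_zero hm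
      rw [Nat.succ_eq_add_one, pow_succ', ← Matrix.vecMul_vecMul, hc0N, Matrix.zero_vecMul]
      simp
    · simp
  -- the top power
  have hdeg : ∀ c, (expHom ev N (lin c)).natDegree ≤ k := by
    intro c
    rw [expHom_lin]
    apply Polynomial.natDegree_sum_le_of_forall_le
    intro m _
    by_cases hm : m ≤ k
    · exact (Polynomial.natDegree_monomial_le _).trans hm
    · have : N ^ m = 0 := by
        obtain ⟨j, rfl⟩ := Nat.exists_eq_add_of_le (show k + 1 ≤ m by omega)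
        rw [pow_add, hk', zero_mul]
      rw [this, Matrix.vecMul_zero]
      simp
  have htop : ∀ c, (expHom ev N (lin c)).coeff k =
      ((k.factorial : ℂ)⁻¹) • LV ev (Matrix.vecMul c (N ^ k)) := by
    intro c
    have hk5 : k < 5 := by
      by_contra hcon
      apply hk
      obtain ⟨j, rfl⟩ := Nat.exists_eq_add_of_le (show 5 ≤ k by omega)
      rw [pow_add, hN, zero_mul]
    rw [expHom_lin, Polynomial.finsetSum_coeff, Finset.sum_eq_single k]
    · rw [Polynomial.coeff_monomial, if_pos rfl]; rfl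
    · intro m _ hm
      rw [Polynomial.coeff_monomial, if_neg hm]
    · intro hm
      exact absurd (Finset.mem_range.mpr hk5) hm
  have hposc : ∀ c, IsPos (HahnSeries.single (k : ℤ) 1 * σ (LV ev c)) ∧
      (HahnSeries.single (k : ℤ) 1 * σ (LV ev c)).coeff 0 =
        ((k.factorial : ℂ)⁻¹) • LV ev (Matrix.vecMul c (N ^ k)) := by
    intro c
    have := shift_polyToL (expHom ev N (lin c)) k (hdeg c)
    rw [htop] at this
    rw [LV_apply, hσ, hg]
    exact this
  -- two vectors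
  set T : Module.End ℂ (Fin 5 → ℂ) := Matrix.vecMulLinear N with hT
  have hTk : T ^ (k + 1) = 0 := by
    ext1
    ext1
    rw [LinearMap.comp_apply, hT, vecMul_pow, hk', Matrix.vecMul_zero]
    rfl
  have hW0 : LinearMap.range (T ^ k) ≠ ⊥ := by
    rw [Ne, LinearMap.range_eq_bot]
    intro h
    apply hk
    apply Matrix.ext_of_single_vecMul
    intro c
    rw [← vecMul_pow, ← hT, h, Matrix.vecMul_zero]
    rfl
  obtain ⟨w1, ⟨c1, rfl⟩, w2, ⟨c2, rfl⟩, hw1, hspan⟩ :=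
    exists_two_span (LinearMap.range (T ^ k)) (rank_top_power T k hk1 hTk) hW0
  have hfac : ((k.factorial : ℂ)⁻¹) ≠ 0 :=
    inv_ne_zero (by exact_mod_cast k.factorial_ne_zero)
  apply eq_zero_of_forall_der
  intro δ
  refine key σ δ (LinearMap.range (LV ev)) (LV ev c0) ⟨c0, rfl⟩ hy0 ?_
    (HahnSeries.single (k : ℤ) 1) (fun z => (HahnSeries.single (k : ℤ) 1 * σ z).coeff 0) ?_
    (LV ev c1) (LV ev c2) ⟨c1, rfl⟩ ⟨c2, rfl⟩ ?_ ?_ w hw
  · rintro _ ⟨c, rfl⟩
    have hdiv : σ (LV ev c / LV ev c0) = σ (LV ev c) * HahnSeries.C ((LV ev c0)⁻¹) := by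
      rw [map_div₀, hσy, div_eq_mul_inv, map_inv₀]
    rw [hdiv]
    have h1 := (hσ0 c).1.mul (isNeg_C ((LV ev c0)⁻¹))
    refine ⟨h1.1, ?_⟩
    rw [h1.2, (hσ0 c).2, coeff_zero_C, div_eq_mul_inv]
  · rintro _ ⟨c, rfl⟩
    exact ⟨(hposc c).1, rfl⟩
  · change (HahnSeries.single (k : ℤ) 1 * σ (LV ev c1)).coeff 0 ≠ 0
    rw [(hposc c1).2]
    intro h
    rw [smul_eq_zero] at h
    rcases h with h | h
    · exact hfac h
    · apply hw1
      rw [hT, vecMul_pow]
      exact hLV0 _ h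
  · rintro _ ⟨c, rfl⟩
    obtain ⟨α, β, hαβ⟩ := hspan ((T ^ k) c) ⟨c, rfl⟩
    refine ⟨α, β, ?_⟩
    change (HahnSeries.single (k : ℤ) 1 * σ (LV ev c)).coeff 0 =
      α • (HahnSeries.single (k : ℤ) 1 * σ (LV ev c1)).coeff 0 +
      β • (HahnSeries.single (k : ℤ) 1 * σ (LV ev c2)).coeff 0
    rw [(hposc c).2, (hposc c1).2, (hposc c2).2]
    rw [hT, vecMul_pow, vecMul_pow, vecMul_pow] at hαβ
    rw [hαβ, map_add, map_smul, map_smul, smul_add, smul_comm α, smul_comm β]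

end Run7.h457
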