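import Mathlib

namespace Run7.h457

open KaehlerDifferential TensorProduct

/-- Field extensions in characteristic zero are formally smooth. -/
lemma formallySmooth_of_charZero (F K : Type*) [Field F] [Field K] [Algebra F K] [CharZero F] :
    Algebra.FormallySmooth F K := by
  obtain ⟨s, hs⟩ := exists_isTranscendenceBasis F K
  have halg := hs.isAlgebraic_field
  have hsep : Algebra.IsSeparable (IntermediateField.adjoin F (Set.range ((↑) : s → K))) K := by
    infer_instance
  exact Algebra.FormallySmooth.of_algebraicIndependent_of_isSeparable hs.1

/-- If `A` is a domain smooth over `ℂ` and `A → K` is an injection into a field, then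
`Ω[A⁄ℂ] → Ω[K⁄ℂ]` is injective. -/
lemma map_injective (A K : Type*) [CommRing A] [IsDomain A] [Field K] [Algebra ℂ A]
    [Algebra ℂ K] [Algebra A K] [IsScalarTower ℂ A K] [FaithfulSMul A K]
    [Algebra.FormallySmooth ℂ A] :
    Function.Injective (KaehlerDifferential.map ℂ ℂ A K) := by
  have hinj : Function.Injective (algebraMap A K) := FaithfulSMul.algebraMap_injective A K
  let _ : Algebra (FractionRing A) K := FractionRing.liftAlgebra A K
  have : IsScalarTower A (FractionRing A) K := inferInstance
  have hchar : CharZero (FractionRing A) := charZero_of_injective_algebraMap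
    (R := ℂ) (algebraMap ℂ (FractionRing A)).injective
  have h1 : Algebra.FormallySmooth (FractionRing A) K := formallySmooth_of_charZero _ _
  have h2 : Algebra.FormallySmooth A (FractionRing A) :=
    Algebra.FormallySmooth.of_isLocalization (nonZeroDivisors A)
  have h3 : Algebra.FormallySmooth A K := Algebra.FormallySmooth.comp A (FractionRing A) K
  have h4 : Function.Injective (KaehlerDifferential.mapBaseChange ℂ A K) := by
    rw [injective_iff_map_eq_zero]
    intro x hx
    obtain ⟨y, rfl⟩ := (Algebra.H1Cotangent.exact_δ_mapBaseChange ℂ A K x).mp hx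
    have : y = 0 := Subsingleton.elim _ _
    rw [this, map_zero]
  rw [injective_iff_map_eq_zero]
  intro w hw
  have h5 : (1 : K) ⊗ₜ[A] w = 0 := by
    apply h4
    rw [KaehlerDifferential.mapBaseChange_tmul, hw, smul_zero, map_zero]
  rw [← Module.forall_dual_apply_eq_zero_iff A]
  intro f
  apply hinj
  rw [map_zero]
  have h6 := congrArg (LinearMap.lTensor K f) h5
  rw [LinearMap.lTensor_tmul, map_zero] at h6
  have h7 := congrArg (TensorProduct.rid A K) h6
  rw [TensorProduct.rid_tmul, map_zero, Algebra.smul_def, mul_one] at h7
  exact h7

end Run7.h457
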