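import Mathlib
import Pool.Agent.Run7.h457.Laurent
import Pool.Agent.Run7.h457.Maps
import Pool.Agent.Run7.h457.Key
import Pool.Agent.Run7.h457.Ga
import Pool.Agent.Run7.h457.GaMain

namespace Run7.h457

attribute [-instance] HahnSeries.powerSeriesAlgebra

open MvPolynomial

/-- A basis adapted to the generalized eigenspaces. -/
lemma exists_adapted_basis (T : Module.End ℂ (Fin 5 → ℂ)) :
    ∃ (b : Module.Basis (Fin 5) ℂ (Fin 5 → ℂ)) (μ : Fin 5 → ℂ),
      ∀ k, b k ∈ T.maxGenEigenspace (μ k) := by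
  classical
  have hint : DirectSum.IsInternal T.maxGenEigenspace :=
    DirectSum.isInternal_submodule_of_iSupIndep_of_iSup_eq_top T.independent_maxGenEigenspace
      T.iSup_maxGenEigenspace_eq_top
  let v := fun μ : ℂ => Module.finBasis ℂ (T.maxGenEigenspace μ)
  let b0 := hint.collectedBasis v
  have hfin := Module.Finite.finite_basis b0
  let _ := Fintype.ofFinite (Σ μ : ℂ, Fin (Module.finrank ℂ (T.maxGenEigenspace μ)))
  have hcard : Fintype.card (Σ μ : ℂ, Fin (Module.finrank ℂ (T.maxGenEigenspace μ))) = 5 := by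
    rw [← Module.finrank_eq_card_basis b0]; simp
  let e := Fintype.equivFinOfCardEq hcard
  refine ⟨b0.reindex e, fun k => (e.symm k).1, fun k => ?_⟩
  rw [Module.Basis.reindex_apply]
  exact hint.collectedBasis_mem v (e.symm k)

/-- Integer weights separating two given eigenvalues. -/
lemma exists_weights (μ : Fin 5 → ℂ) (i j : Fin 5) (hij : μ i ≠ μ j) :
    ∃ a : Fin 5 → ℤ, a i ≠ a j ∧ ∀ m m' : Fin 5 →₀ ℕ,
      (∑ k, (m k : ℂ) * μ k = ∑ k, (m' k : ℂ) * μ k) →
        ∑ k, (m k : ℤ) * a k = ∑ k, (m' k : ℤ) * a k := by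
  have hne : μ i - μ j ≠ 0 := sub_ne_zero.mpr hij
  obtain ⟨φ, hφ⟩ : ∃ φ : Module.Dual ℚ ℂ, φ (μ i - μ j) ≠ 0 := by
    by_contra hcon
    push Not at hcon
    exact hne ((Module.forall_dual_apply_eq_zero_iff ℚ _).mp hcon)
  obtain ⟨⟨N, hN⟩, hNint⟩ := IsLocalization.exist_integer_multiples_of_finset
    (nonZeroDivisors ℤ) (Finset.univ.image fun k => φ (μ k))
  have h1 : ∀ k, ∃ z : ℤ, (z : ℚ) = (N : ℚ) * φ (μ k) := by
    intro k
    obtain ⟨z, hz⟩ := hNint (φ (μ k)) (Finset.mem_image_of_mem _ (Finset.mem_univ k))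
    refine ⟨z, ?_⟩
    simpa using hz
  choose a ha using h1
  have hN0 : (N : ℚ) ≠ 0 := by
    exact_mod_cast nonZeroDivisors.ne_zero hN
  refine ⟨a, ?_, ?_⟩
  · intro h
    apply hφ
    have h2 : (a i : ℚ) = a j := by rw [h]
    rw [ha, ha] at h2
    have h3 := mul_left_cancel₀ hN0 h2
    rw [map_sub, h3, sub_self]
  · intro m m' h
    have key : ∀ m : Fin 5 →₀ ℕ, ((∑ k, (m k : ℤ) * a k : ℤ) : ℚ) =
        N * φ (∑ k, (m k : ℂ) * μ k) := by
      intro m
      push_cast
      rw [map_sum, Finset.mul_sum]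
      refine Finset.sum_congr rfl fun k _ => ?_
      have : (m k : ℂ) * μ k = (m k : ℚ) • μ k := by
        rw [Algebra.smul_def]; simp
      rw [ha, this, map_smul, smul_eq_mul]
      ring
    have h4 : ((∑ k, (m k : ℤ) * a k : ℤ) : ℚ) = ((∑ k, (m' k : ℤ) * a k : ℤ) : ℚ) := by
      rw [key, key, h]
    exact_mod_cast h4

/-- Invariant submodules contain the generalized eigencomponents of their elements. -/
lemma mem_of_sum_mem {M : Type*} [AddCommGroup M] [Module ℂ M] (D : Module.End ℂ M)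
    (p : Submodule ℂ M) (hp : ∀ x ∈ p, D x ∈ p) (s : Finset ℂ) (v : ℂ → M)
    (hv : ∀ ν ∈ s, v ν ∈ D.maxGenEigenspace ν) (hsum : ∑ ν ∈ s, v ν ∈ p) :
    ∀ ν ∈ s, v ν ∈ p := by
  let D' : Module.End ℂ (M ⧸ p) := p.mapQ p D hp
  have hD' : ∀ x, D' (p.mkQ x) = p.mkQ (D x) := fun x => rfl
  have hpow : ∀ (ν : ℂ) (n : ℕ) (x : M), ((D' - ν • (1 : Module.End ℂ (M ⧸ p))) ^ n) (p.mkQ x) =
      p.mkQ (((D - ν • (1 : Module.End ℂ M)) ^ n) x) := by
    intro ν n
    induction n with
    | zero => intro x; simp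
    | succ n ih =>
      intro x
      rw [pow_succ, Module.End.mul_apply, pow_succ, Module.End.mul_apply]
      have : (D' - ν • (1 : Module.End ℂ (M ⧸ p))) (p.mkQ x) =
          p.mkQ ((D - ν • (1 : Module.End ℂ M)) x) := by
        rw [LinearMap.sub_apply, LinearMap.sub_apply, LinearMap.smul_apply, LinearMap.smul_apply,
          hD', map_sub, map_smul]
        rfl
      rw [this, ih]
  have hind := (iSupIndep_iff_finsetSum_eq_zero_imp_eq_zero D'.maxGenEigenspace).mp
    D'.independent_maxGenEigenspace s (fun ν => p.mkQ (v ν)) (by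
      intro ν hν
      obtain ⟨k, hk⟩ := (Module.End.mem_maxGenEigenspace D ν (v ν)).mp (hv ν hν)
      rw [Module.End.mem_maxGenEigenspace]
      exact ⟨k, by rw [hpow, hk, map_zero]⟩) (by
      rw [← map_sum]
      exact (Submodule.Quotient.mk_eq_zero p).mpr hsum)
  intro ν hν
  have := hind ν hν
  simpa using this

/-- Products of generalized eigenvectors of a derivation. -/
lemma mul_mem_maxGen (D : Derivation ℂ S5 S5) (α β : ℂ) (x y : S5)
    (hx : x ∈ Module.End.maxGenEigenspace (D : S5 →ₗ[ℂ] S5) α)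
    (hy : y ∈ Module.End.maxGenEigenspace (D : S5 →ₗ[ℂ] S5) β) :
    x * y ∈ Module.End.maxGenEigenspace (D : S5 →ₗ[ℂ] S5) (α + β) := by
  rw [Module.End.mem_maxGenEigenspace] at hx hy ⊢
  obtain ⟨i, hi⟩ := hx
  obtain ⟨j, hj⟩ := hy
  refine ⟨i + j, ?_⟩
  have main : ∀ n i j, i + j = n → ∀ x y : S5,
      (((D : S5 →ₗ[ℂ] S5) - α • (1 : Module.End ℂ S5)) ^ i) x = 0 →
      (((D : S5 →ₗ[ℂ] S5) - β • (1 : Module.End ℂ S5)) ^ j) y = 0 →
      (((D : S5 →ₗ[ℂ] S5) - (α + β) • (1 : Module.End ℂ S5)) ^ n) (x * y) = 0 := by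
    intro n
    induction n with
    | zero =>
      intro i j hij x y hx hy
      obtain ⟨rfl, rfl⟩ : i = 0 ∧ j = 0 := by omega
      have hx' : x = 0 := by simpa using hx
      rw [hx', zero_mul, map_zero]
    | succ n ih =>
      intro i j hij x y hx hy
      rcases i with _ | i
      · have hx' : x = 0 := by simpa using hx
        rw [hx', zero_mul, map_zero]
      rcases j with _ | j
      · have hy' : y = 0 := by simpa using hy
        rw [hy', mul_zero, map_zero]
      have h1 : ((D : S5 →ₗ[ℂ] S5) - (α + β) • (1 : Module.End ℂ S5)) (x * y) =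
          (((D : S5 →ₗ[ℂ] S5) - α • (1 : Module.End ℂ S5)) x) * y +
          x * (((D : S5 →ₗ[ℂ] S5) - β • (1 : Module.End ℂ S5)) y) := by
        simp only [LinearMap.sub_apply, LinearMap.smul_apply, Module.End.one_apply,
          Derivation.coeFn_coe, Derivation.leibniz, smul_eq_mul, MvPolynomial.smul_eq_C_mul,
          map_add]
        ring
      rw [pow_succ, Module.End.mul_apply, h1, map_add]
      rw [pow_succ, Module.End.mul_apply] at hx hy
      rw [ih i (j + 1) (by omega) _ _ hx (by rw [pow_succ, Module.End.mul_apply]; exact hy),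
        ih (i + 1) j (by omega) _ _ (by rw [pow_succ, Module.End.mul_apply]; exact hx) hy, add_zero]
  exact main (i + j) i j rfl x y hi hj

lemma one_mem_maxGen (D : Derivation ℂ S5 S5) :
    (1 : S5) ∈ Module.End.maxGenEigenspace (D : S5 →ₗ[ℂ] S5) 0 := by
  rw [Module.End.mem_maxGenEigenspace]
  refine ⟨1, ?_⟩
  simp

lemma lin_mem_maxGen (A : Matrix (Fin 5) (Fin 5) ℂ) (μ : ℂ) (c : Fin 5 → ℂ)
    (hc : c ∈ Module.End.maxGenEigenspace (Matrix.vecMulLinear A : Module.End ℂ (Fin 5 → ℂ)) μ) :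
    lin c ∈ Module.End.maxGenEigenspace ((linearVF A : Derivation ℂ S5 S5) : S5 →ₗ[ℂ] S5) μ := by
  rw [Module.End.mem_maxGenEigenspace] at hc ⊢
  obtain ⟨n, hn⟩ := hc
  refine ⟨n, ?_⟩
  have main : ∀ n (c : Fin 5 → ℂ),
      ((((linearVF A : Derivation ℂ S5 S5) : S5 →ₗ[ℂ] S5) - μ • (1 : Module.End ℂ S5)) ^ n)
        (lin c) = lin ((((Matrix.vecMulLinear A : Module.End ℂ (Fin 5 → ℂ)) -
          μ • (1 : Module.End ℂ (Fin 5 → ℂ))) ^ n) c) := by
    intro n
    induction n with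
    | zero => intro c; simp
    | succ n ih =>
      intro c
      rw [pow_succ, Module.End.mul_apply, pow_succ, Module.End.mul_apply, ← ih]
      congr 1
      simp only [LinearMap.sub_apply, LinearMap.smul_apply, Module.End.one_apply,
        Derivation.coeFn_coe, linearVF_lin, Matrix.vecMulLinear_apply, map_sub, map_smul]
  rw [main, hn, map_zero]

end Run7.h457
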