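import Mathlib
import Pool.Agent.Run7.h457.Laurent
import Pool.Agent.Run7.h457.Maps
import Pool.Agent.Run7.h457.Key
import Pool.Agent.Run7.h457.Ga
import Pool.Agent.Run7.h457.GaMain
import Pool.Agent.Run7.h457.Gm

namespace Run7.h457

attribute [-instance] HahnSeries.powerSeriesAlgebra

open MvPolynomial KaehlerDifferential

variable {K : Type*} [Field K] [Algebra ℂ K]

/-- The change of coordinates sending `X k` to the linear form with coefficients `b k`. -/
noncomputable def theta (b : Fin 5 → Fin 5 → ℂ) : S5 →ₐ[ℂ] S5 := aeval (fun k => lin (b k))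

/-- The twisted homomorphism `X k ↦ (1+T)^(a k) * b k`. -/
noncomputable def twist (ev : S5 →ₐ[ℂ] K) (b : Fin 5 → Fin 5 → ℂ) (a : Fin 5 → ℤ) :
    S5 →ₐ[ℂ] HahnSeries ℤ K :=
  aeval (fun k => UU ^ (a k) * HahnSeries.C (ev (lin (b k))))

/-- weight of an exponent vector -/
def wtC (μ : Fin 5 → ℂ) (m : Fin 5 →₀ ℕ) : ℂ := ∑ k, (m k : ℂ) * μ k

/-- integer weight of an exponent vector -/
def wtZ (a : Fin 5 → ℤ) (m : Fin 5 →₀ ℕ) : ℤ := ∑ k, (m k : ℤ) * a k

lemma wtC_add (μ : Fin 5 → ℂ) (m n : Fin 5 →₀ ℕ) : wtC μ (m + n) = wtC μ m + wtC μ n := by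
  simp [wtC, add_mul, Finset.sum_add_distrib]

lemma wtZ_add (a : Fin 5 → ℤ) (m n : Fin 5 →₀ ℕ) : wtZ a (m + n) = wtZ a m + wtZ a n := by
  simp [wtZ, add_mul, Finset.sum_add_distrib]

lemma wtC_single (μ : Fin 5 → ℂ) (k : Fin 5) : wtC μ (Finsupp.single k 1) = μ k := by
  rw [wtC, Finset.sum_eq_single k]
  · simp
  · intro j _ hj; simp [Finsupp.single_eq_of_ne hj]
  · simp

lemma wtZ_single (a : Fin 5 → ℤ) (k : Fin 5) : wtZ a (Finsupp.single k 1) = a k := by
  rw [wtZ, Finset.sum_eq_single k]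
  · simp
  · intro j _ hj; simp [Finsupp.single_eq_of_ne hj]
  · simp

/-- induction over exponent vectors -/
lemma expo_induction {P : (Fin 5 →₀ ℕ) → Prop} (h0 : P 0)
    (hs : ∀ m k, P m → P (m + Finsupp.single k 1)) (m : Fin 5 →₀ ℕ) : P m := by
  induction m using Finsupp.induction_linear with
  | zero => exact h0
  | add f g hf hg =>
    -- strengthen
    have : ∀ g : Fin 5 →₀ ℕ, ∀ f, P f → P (f + g) := by
      intro g
      induction g using Finsupp.induction_linear with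
      | zero => intro f hf; simpa using hf
      | add g1 g2 h1 h2 => intro f hf; rw [← add_assoc]; exact h2 _ (h1 _ hf)
      | single k n =>
        induction n with
        | zero => intro f hf; simpa using hf
        | succ n ih =>
          intro f hf
          rw [Finsupp.single_add, ← add_assoc]
          exact hs _ _ (ih _ hf)
    exact this g f hf
  | single k n =>
    induction n with
    | zero => simpa using h0
    | succ n ih => rw [Finsupp.single_add]; exact hs _ _ ih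

lemma monomial_step (m : Fin 5 →₀ ℕ) (k : Fin 5) :
    (monomial (m + Finsupp.single k 1) (1 : ℂ) : S5) = monomial m 1 * X k := by
  rw [X, monomial_mul, one_mul]

lemma theta_monomial_mem (A : Matrix (Fin 5) (Fin 5) ℂ) (b : Fin 5 → Fin 5 → ℂ)
    (μ : Fin 5 → ℂ)
    (hb : ∀ k, b k ∈ Module.End.maxGenEigenspace
      (Matrix.vecMulLinear A : Module.End ℂ (Fin 5 → ℂ)) (μ k)) (m : Fin 5 →₀ ℕ) :
    theta b (monomial m 1) ∈
      Module.End.maxGenEigenspace ((linearVF A : Derivation ℂ S5 S5) : S5 →ₗ[ℂ] S5)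
        (wtC μ m) := by
  induction m using expo_induction with
  | h0 =>
    have h1 : (monomial 0 (1 : ℂ) : S5) = 1 := rfl
    have h2 : wtC μ 0 = 0 := by simp [wtC]
    rw [h1, map_one, h2]
    exact one_mem_maxGen _
  | hs m k ih =>
    rw [monomial_step, map_mul, wtC_add, wtC_single]
    refine mul_mem_maxGen _ _ _ _ _ ih ?_
    rw [theta, aeval_X]
    exact lin_mem_maxGen A (μ k) (b k) (hb k)

lemma twist_monomial (ev : S5 →ₐ[ℂ] K) (b : Fin 5 → Fin 5 → ℂ) (a : Fin 5 → ℤ)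
    (m : Fin 5 →₀ ℕ) :
    twist ev b a (monomial m 1) =
      UU ^ (wtZ a m) * HahnSeries.C (ev (theta b (monomial m 1))) := by
  induction m using expo_induction with
  | h0 =>
    have h1 : (monomial 0 (1 : ℂ) : S5) = 1 := rfl
    have h2 : wtZ a 0 = 0 := by simp [wtZ]
    rw [h1, map_one, map_one, map_one, map_one, h2, zpow_zero, one_mul]
  | hs m k ih =>
    rw [monomial_step, map_mul, ih, map_mul, map_mul, map_mul, wtZ_add, wtZ_single,
      zpow_add₀ UU_ne_zero]
    have h3 : twist ev b a (X k) = UU ^ (a k) * HahnSeries.C (ev (lin (b k))) := by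
      rw [twist, aeval_X]
    have h4 : theta b (X k) = lin (b k) := by rw [theta, aeval_X]
    rw [h3, h4]
    ring

lemma algMap_eq_C (c : ℂ) : algebraMap ℂ (HahnSeries ℤ K) c = HahnSeries.C (algebraMap ℂ K c) :=
  rfl

lemma twist_eq_sum (ev : S5 →ₐ[ℂ] K) (b : Fin 5 → Fin 5 → ℂ) (a : Fin 5 → ℤ) (f : S5) :
    twist ev b a f = ∑ m ∈ f.support,
      UU ^ (wtZ a m) * HahnSeries.C (ev (theta b (monomial m (coeff m f)))) := by
  conv_lhs => rw [f.as_sum]
  rw [map_sum]
  refine Finset.sum_congr rfl fun m _ => ?_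
  have h1 : (monomial m (coeff m f) : S5) = C (coeff m f) * monomial m 1 := by
    rw [C_mul_monomial, mul_one]
  rw [h1, map_mul, twist_monomial, map_mul, map_mul, map_mul, ← MvPolynomial.algebraMap_eq,
    AlgHom.commutes, AlgHom.commutes, AlgHom.commutes, algMap_eq_C]
  ring

/-- the twisted homomorphism kills the ideal -/
lemma twist_eq_zero (I : Ideal S5) (ev : S5 →ₐ[ℂ] K) (hev : ∀ f, ev f = 0 ↔ f ∈ I)
    (A : Matrix (Fin 5) (Fin 5) ℂ) (hI : ∀ f ∈ I, linearVF A f ∈ I)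
    (b : Fin 5 → Fin 5 → ℂ) (μ : Fin 5 → ℂ)
    (hb : ∀ k, b k ∈ Module.End.maxGenEigenspace
      (Matrix.vecMulLinear A : Module.End ℂ (Fin 5 → ℂ)) (μ k))
    (a : Fin 5 → ℤ) (ha : ∀ m m' : Fin 5 →₀ ℕ, wtC μ m = wtC μ m' → wtZ a m = wtZ a m')
    (f : S5) (hf : theta b f ∈ I) : twist ev b a f = 0 := by
  classical
  set s : Finset ℂ := f.support.image (wtC μ) with hs
  set v : ℂ → S5 := fun ν => ∑ m ∈ f.support.filter (fun m => wtC μ m = ν),
    theta b (monomial m (coeff m f)) with hv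
  have hvmem : ∀ ν ∈ s, v ν ∈
      Module.End.maxGenEigenspace ((linearVF A : Derivation ℂ S5 S5) : S5 →ₗ[ℂ] S5) ν := by
    intro ν _
    refine Submodule.sum_mem _ fun m hm => ?_
    have h1 : (monomial m (coeff m f) : S5) = coeff m f • monomial m 1 := by
      rw [smul_monomial, smul_eq_mul, mul_one]
    rw [h1, map_smul]
    refine Submodule.smul_mem _ _ ?_
    rw [← (Finset.mem_filter.mp hm).2]
    exact theta_monomial_mem A b μ hb m
  have hsum : ∑ ν ∈ s, v ν = theta b f := by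
    conv_rhs => rw [f.as_sum, map_sum]
    rw [hs, hv]
    exact (Finset.sum_fiberwise_of_maps_to (fun m hm => Finset.mem_image_of_mem _ hm) _)
  have hvI := mem_of_sum_mem ((linearVF A : Derivation ℂ S5 S5) : S5 →ₗ[ℂ] S5)
    (I.restrictScalars ℂ) (fun x hx => hI x hx) s v hvmem (by rw [hsum]; exact hf)
  rw [twist_eq_sum]
  rw [← Finset.sum_fiberwise_of_maps_to
    (fun m hm => Finset.mem_image_of_mem (wtC μ) hm) (t := s)]
  refine Finset.sum_eq_zero fun ν hν => ?_
  obtain ⟨m0, hm0, hm0ν⟩ := Finset.mem_image.mp hν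
  have h2 : ∀ m ∈ f.support.filter (fun m => wtC μ m = ν),
      UU ^ (wtZ a m) * HahnSeries.C (ev (theta b (monomial m (coeff m f)))) =
      (UU : HahnSeries ℤ K) ^ (wtZ a m0) *
        HahnSeries.C (ev (theta b (monomial m (coeff m f)))) := by
    intro m hm
    rw [ha m m0 (by rw [(Finset.mem_filter.mp hm).2, hm0ν])]
  rw [Finset.sum_congr rfl h2, ← Finset.mul_sum, ← map_sum, ← map_sum]
  have h3 : ev (v ν) = 0 := (hev _).mpr (hvI ν hν)
  rw [hv] at h3
  simp only at h3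
  rw [h3, map_zero, mul_zero]

lemma UU_zpow_isNeg (n : ℤ) (hn : 0 ≤ n) : IsNeg ((UU : HahnSeries ℤ K) ^ n) ∧
    ((UU : HahnSeries ℤ K) ^ n).coeff 0 = 1 := by
  obtain ⟨k, rfl⟩ := Int.eq_ofNat_of_zero_le hn
  have := UU_pow_isNeg (K := K) k
  simpa using this

lemma UU_zpow_isPos (n : ℤ) (hn : n ≤ 0) : IsPos ((UU : HahnSeries ℤ K) ^ n) ∧
    ((UU : HahnSeries ℤ K) ^ n).coeff 0 = if n = 0 then 1 else 0 := by
  obtain ⟨k, hk⟩ := Int.eq_ofNat_of_zero_le (show 0 ≤ -n by omega)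
  obtain rfl : n = -(k : ℤ) := by omega
  have := UU_inv_pow_isPos (K := K) k
  rw [zpow_neg, zpow_natCast, ← inv_pow]
  simpa using this

/-- the twisted homomorphism is injective modulo the ideal -/
lemma twist_normalized (ev : S5 →ₐ[ℂ] K) (b : Fin 5 → Fin 5 → ℂ) (a : Fin 5 → ℤ) (f : S5) :
    ∃ M : ℕ, IsNeg ((UU : HahnSeries ℤ K) ^ M * twist ev b a f) ∧
      ((UU : HahnSeries ℤ K) ^ M * twist ev b a f).coeff 0 = ev (theta b f) := by
  induction f using MvPolynomial.induction_on with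
  | C c =>
    refine ⟨0, ?_⟩
    rw [pow_zero, one_mul, ← MvPolynomial.algebraMap_eq, AlgHom.commutes, AlgHom.commutes,
      AlgHom.commutes, algMap_eq_C]
    exact ⟨isNeg_C _, coeff_zero_C _⟩
  | add p q hp hq =>
    obtain ⟨M1, h1, h1'⟩ := hp
    obtain ⟨M2, h2, h2'⟩ := hq
    refine ⟨M1 + M2, ?_⟩
    have e1 : (UU : HahnSeries ℤ K) ^ (M1 + M2) * twist ev b a (p + q) =
        UU ^ M2 * (UU ^ M1 * twist ev b a p) + UU ^ M1 * (UU ^ M2 * twist ev b a q) := by
      rw [map_add]; ring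
    have h3 := (UU_pow_isNeg (K := K) M2).1.mul h1
    have h4 := (UU_pow_isNeg (K := K) M1).1.mul h2
    rw [e1]
    refine ⟨h3.1.add h4.1, ?_⟩
    rw [HahnSeries.coeff_add, h3.2, h4.2, (UU_pow_isNeg M2).2, (UU_pow_isNeg M1).2, h1', h2',
      one_mul, one_mul, map_add, map_add]
  | mul_X p k hp =>
    obtain ⟨M, h1, h1'⟩ := hp
    refine ⟨M + (a k).natAbs, ?_⟩
    have h3 : twist ev b a (X k) = UU ^ (a k) * HahnSeries.C (ev (lin (b k))) := by
      rw [twist, aeval_X]
    have h4 : theta b (X k) = lin (b k) := by rw [theta, aeval_X]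
    have e1 : (UU : HahnSeries ℤ K) ^ (M + (a k).natAbs) * twist ev b a (p * X k) =
        (UU ^ M * twist ev b a p) *
          (UU ^ (((a k).natAbs : ℤ) + a k) * HahnSeries.C (ev (lin (b k)))) := by
      rw [map_mul, h3, pow_add, zpow_add₀ UU_ne_zero, zpow_natCast]; ring
    have h5 := UU_zpow_isNeg (K := K) (((a k).natAbs : ℤ) + a k) (by omega)
    have h6 := h5.1.mul (isNeg_C (ev (lin (b k))))
    have h7 := h1.mul h6.1
    rw [e1]
    refine ⟨h7.1, ?_⟩
    rw [h7.2, h6.2, h5.2, h1', coeff_zero_C, one_mul, map_mul, map_mul, h4]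

end Run7.h457
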