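import Mathlib
import Pool.Agent.Run7.h457.Laurent
import Pool.Agent.Run7.h457.Maps
import Pool.Agent.Run7.h457.Key
import Pool.Agent.Run7.h457.Ga
import Pool.Agent.Run7.h457.GaMain
import Pool.Agent.Run7.h457.Gm
import Pool.Agent.Run7.h457.GmMain

namespace Run7.h457

attribute [-instance] HahnSeries.powerSeriesAlgebra

open MvPolynomial KaehlerDifferential

variable {K : Type*} [Field K] [Algebra ℂ K]

lemma isNeg_sum {ι : Type*} (s : Finset ι) (x : ι → HahnSeries ℤ K) (r : ι → K)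
    (h : ∀ k ∈ s, IsNeg (x k) ∧ (x k).coeff 0 = r k) :
    IsNeg (∑ k ∈ s, x k) ∧ (∑ k ∈ s, x k).coeff 0 = ∑ k ∈ s, r k := by
  classical
  induction s using Finset.induction_on with
  | empty =>
    refine ⟨?_, by simp⟩
    intro n _
    simp
  | insert k s hk ih =>
    have h1 := h k (Finset.mem_insert_self _ _)
    have h2 := ih fun j hj => h j (Finset.mem_insert_of_mem hj)
    rw [Finset.sum_insert hk, Finset.sum_insert hk, HahnSeries.coeff_add, h1.2, h2.2]
    exact ⟨h1.1.add h2.1, rfl⟩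

lemma isPos_sum {ι : Type*} (s : Finset ι) (x : ι → HahnSeries ℤ K) (r : ι → K)
    (h : ∀ k ∈ s, IsPos (x k) ∧ (x k).coeff 0 = r k) :
    IsPos (∑ k ∈ s, x k) ∧ (∑ k ∈ s, x k).coeff 0 = ∑ k ∈ s, r k := by
  classical
  induction s using Finset.induction_on with
  | empty =>
    refine ⟨?_, by simp⟩
    intro n _
    simp
  | insert k s hk ih =>
    have h1 := h k (Finset.mem_insert_self _ _)
    have h2 := ih fun j hj => h j (Finset.mem_insert_of_mem hj)
    rw [Finset.sum_insert hk, Finset.sum_insert hk, HahnSeries.coeff_add, h1.2, h2.2]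
    exact ⟨h1.1.add h2.1, rfl⟩

lemma lin_sum_smul (c : Fin 5 → ℂ) (b : Fin 5 → Fin 5 → ℂ) :
    lin (∑ k, c k • b k) = ∑ k, C (c k) * lin (b k) := by
  rw [map_sum]
  refine Finset.sum_congr rfl fun k _ => ?_
  rw [map_smul, MvPolynomial.smul_eq_C_mul]

lemma theta_lin (b : Fin 5 → Fin 5 → ℂ) (c : Fin 5 → ℂ) :
    theta b (lin c) = lin (∑ k, c k • b k) := by
  rw [lin_sum_smul, lin_apply, map_sum]
  refine Finset.sum_congr rfl fun k _ => ?_
  rw [map_mul, theta, aeval_X, ← MvPolynomial.algebraMap_eq, AlgHom.commutes]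

lemma twist_lin (ev : S5 →ₐ[ℂ] K) (b : Fin 5 → Fin 5 → ℂ) (a : Fin 5 → ℤ) (c : Fin 5 → ℂ) :
    twist ev b a (lin c) = ∑ k, UU ^ (a k) * HahnSeries.C (c k • LV ev (b k)) := by
  rw [lin_apply, map_sum]
  refine Finset.sum_congr rfl fun k _ => ?_
  rw [map_mul, twist, aeval_X, ← MvPolynomial.algebraMap_eq, AlgHom.commutes, algMap_eq_C,
    Algebra.smul_def, map_mul, LV_apply]
  ring

theorem gm_core (I : Ideal S5) (ev : S5 →ₐ[ℂ] K)
    (hext : ∀ (g : S5 →ₐ[ℂ] HahnSeries ℤ K), (∀ f, f ∈ I ↔ g f = 0) →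
      ∃ σ : K →ₐ[ℂ] HahnSeries ℤ K, ∀ f, σ (ev f) = g f)
    (hev : ∀ f, ev f = 0 ↔ f ∈ I)
    (hnd : ∀ c, lin c ∈ I → c = 0)
    (A : Matrix (Fin 5) (Fin 5) ℂ)
    (hI : ∀ f ∈ I, linearVF A f ∈ I)
    (b : Module.Basis (Fin 5) ℂ (Fin 5 → ℂ)) (μ : Fin 5 → ℂ)
    (hb : ∀ k, b k ∈ Module.End.maxGenEigenspace
      (Matrix.vecMulLinear A : Module.End ℂ (Fin 5 → ℂ)) (μ k))
    (a : Fin 5 → ℤ) (ha : ∀ m m' : Fin 5 →₀ ℕ, wtC μ m = wtC μ m' → wtZ a m = wtZ a m')
    (k0 : Fin 5) (hk0 : ∀ k, a k0 ≤ a k) (k1 : Fin 5) (hk1 : ∀ k, a k ≤ a k1)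
    (hcard : (Finset.univ.filter fun k => a k = a k1).card ≤ 2)
    (w : Ω[K⁄ℂ])
    (hw : ∀ z ∈ LinearMap.range (LV ev), z ≠ 0 →
      w ∈ regForms (chartV (LinearMap.range (LV ev)) z)) : w = 0 := by
  classical
  have hLV0 : ∀ c, LV ev c = 0 → c = 0 := fun c hc => hnd c ((hev _).mp hc)
  have hz0 : ∀ k, LV ev (b k) ≠ 0 := fun k h => b.ne_zero k (hLV0 _ h)
  -- inverse change of coordinates
  let θ' : S5 →ₐ[ℂ] S5 := aeval (fun i => lin (b.equivFun (Pi.single i 1)))
  have hθ'X : ∀ i, θ' (X i) = lin (b.equivFun (Pi.single i 1)) := fun i => by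
    rw [aeval_X]
  have hθθ : ∀ f, theta b (θ' f) = f := by
    have : (theta b).comp θ' = AlgHom.id ℂ S5 := by
      apply MvPolynomial.algHom_ext
      intro i
      rw [AlgHom.comp_apply, hθ'X, theta_lin, b.sum_equivFun, lin_single, AlgHom.id_apply]
    intro f
    rw [← AlgHom.comp_apply, this, AlgHom.id_apply]
  have hθ'lin : ∀ c, θ' (lin c) = lin (b.equivFun c) := by
    intro c
    have h2 : c = ∑ i, c i • (Pi.single i (1 : ℂ) : Fin 5 → ℂ) := by
      funext j
      simp [Finset.sum_apply, Pi.single_apply]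
    have h3 : b.equivFun c = ∑ i, c i • b.equivFun (Pi.single i 1) := by
      conv_lhs => rw [h2]
      rw [map_sum]
      refine Finset.sum_congr rfl fun i _ => ?_
      rw [map_smul]
    rw [h3, lin_sum_smul, lin_apply, map_sum]
    refine Finset.sum_congr rfl fun i _ => ?_
    rw [map_mul, hθ'X, ← MvPolynomial.algebraMap_eq, AlgHom.commutes]
  let g : S5 →ₐ[ℂ] HahnSeries ℤ K := (twist ev b a).comp θ'
  have hg : ∀ f, g f = twist ev b a (θ' f) := fun f => rfl
  have hgI : ∀ f, f ∈ I ↔ g f = 0 := by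
    intro f
    constructor
    · intro hf
      rw [hg]
      exact twist_eq_zero I ev hev A hI b μ hb a ha _ (by rw [hθθ]; exact hf)
    · intro hf
      obtain ⟨M, _, hM⟩ := twist_normalized ev b a (θ' f)
      rw [← hg, hf, mul_zero, HahnSeries.coeff_zero, hθθ] at hM
      exact (hev f).mp hM.symm
  obtain ⟨σ, hσ⟩ := hext g hgI
  have hσLV : ∀ c, σ (LV ev c) =
      ∑ k, UU ^ (a k) * HahnSeries.C (b.equivFun c k • LV ev (b k)) := by
    intro c
    rw [LV_apply, hσ, hg, hθ'lin, twist_lin]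
  have hLVsum : ∀ c, LV ev c = ∑ k, b.equivFun c k • LV ev (b k) := by
    intro c
    conv_lhs => rw [← b.sum_equivFun c]
    rw [map_sum]
    refine Finset.sum_congr rfl fun k _ => ?_
    rw [map_smul]
  have hσb : ∀ k, σ (LV ev (b k)) = UU ^ (a k) * HahnSeries.C (LV ev (b k)) := by
    intro k
    rw [hσLV, Finset.sum_eq_single k]
    · simp [Module.Basis.equivFun_self]
    · intro j _ hj
      rw [Module.Basis.equivFun_self, if_neg (Ne.symm hj)]
      simp
    · simp
  -- the value at infinity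
  have hposc : ∀ c, IsPos (UU ^ (-(a k1)) * σ (LV ev c)) ∧
      (UU ^ (-(a k1)) * σ (LV ev c)).coeff 0 =
        ∑ k, (if a k = a k1 then b.equivFun c k • LV ev (b k) else 0) := by
    intro c
    rw [hσLV, Finset.mul_sum]
    refine isPos_sum _ _ _ fun k _ => ?_
    have e1 : (UU : HahnSeries ℤ K) ^ (-(a k1)) *
        (UU ^ (a k) * HahnSeries.C (b.equivFun c k • LV ev (b k))) =
        UU ^ (a k - a k1) * HahnSeries.C (b.equivFun c k • LV ev (b k)) := by
      rw [← mul_assoc, ← zpow_add₀ UU_ne_zero]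
      congr 2
      ring
    rw [e1]
    have h1 := UU_zpow_isPos (K := K) (a k - a k1) (by have := hk1 k; omega)
    have h2 := h1.1.mul (isPos_C (b.equivFun c k • LV ev (b k)))
    refine ⟨h2.1, ?_⟩
    rw [h2.2, h1.2, coeff_zero_C]
    by_cases h : a k = a k1
    · rw [if_pos (by omega), if_pos h, one_mul]
    · rw [if_neg (by omega), if_neg h, zero_mul]
  have hlamb : ∀ k, a k = a k1 →
      (UU ^ (-(a k1)) * σ (LV ev (b k))).coeff 0 = LV ev (b k) := by
    intro k hk
    rw [(hposc _).2, Finset.sum_eq_single k]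
    · rw [if_pos hk, Module.Basis.equivFun_self, if_pos rfl, one_smul]
    · intro j _ hj
      rw [Module.Basis.equivFun_self, if_neg (Ne.symm hj), zero_smul, ite_self]
    · simp
  -- at most two indices of maximal weight
  obtain ⟨k2, hk2, hk12⟩ : ∃ k2, a k2 = a k1 ∧ ∀ k, a k = a k1 → k = k1 ∨ k = k2 := by
    by_cases h : ∃ k2, k2 ≠ k1 ∧ a k2 = a k1
    · obtain ⟨k2, hne, hk2⟩ := h
      refine ⟨k2, hk2, fun k hk => ?_⟩
      by_contra hcon
      push Not at hcon
      have hsub : ({k, k1, k2} : Finset (Fin 5)) ⊆ Finset.univ.filter fun k => a k = a k1 := by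
        intro j hj
        rw [Finset.mem_filter]
        simp only [Finset.mem_insert, Finset.mem_singleton] at hj
        rcases hj with rfl | rfl | rfl
        · exact ⟨Finset.mem_univ _, hk⟩
        · exact ⟨Finset.mem_univ _, rfl⟩
        · exact ⟨Finset.mem_univ _, hk2⟩
      have h3 : ({k, k1, k2} : Finset (Fin 5)).card = 3 := by
        rw [Finset.card_eq_three]
        exact ⟨k, k1, k2, hcon.1, hcon.2, hne.symm, rfl⟩
      have := Finset.card_le_card hsub
      omega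
    · push Not at h
      exact ⟨k1, rfl, fun k hk => by
        by_contra hcon
        push Not at hcon
        exact h k hcon.1 hk⟩
  apply eq_zero_of_forall_der
  intro δ
  refine key σ δ (LinearMap.range (LV ev)) (LV ev (b k0)) ⟨b k0, rfl⟩ (hz0 k0) ?_
    (UU ^ (-(a k1))) (fun z => (UU ^ (-(a k1)) * σ z).coeff 0) ?_
    (LV ev (b k1)) (LV ev (b k2)) ⟨b k1, rfl⟩ ⟨b k2, rfl⟩ ?_ ?_ w hw
  · rintro _ ⟨c, rfl⟩
    have hdiv : σ (LV ev c / LV ev (b k0)) = ∑ k, UU ^ (a k - a k0) *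
        HahnSeries.C (b.equivFun c k • LV ev (b k) * (LV ev (b k0))⁻¹) := by
      rw [map_div₀, hσb, hσLV, div_eq_mul_inv, Finset.sum_mul]
      refine Finset.sum_congr rfl fun k _ => ?_
      rw [mul_inv, ← map_inv₀, ← zpow_neg, sub_eq_add_neg, zpow_add₀ UU_ne_zero, map_mul]
      ring
    have hr : LV ev c / LV ev (b k0) =
        ∑ k, b.equivFun c k • LV ev (b k) * (LV ev (b k0))⁻¹ := by
      rw [← Finset.sum_mul, ← hLVsum, div_eq_mul_inv]
    rw [hdiv]
    have := isNeg_sum Finset.univ (fun k => UU ^ (a k - a k0) *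
        HahnSeries.C (b.equivFun c k • LV ev (b k) * (LV ev (b k0))⁻¹))
        (fun k => b.equivFun c k • LV ev (b k) * (LV ev (b k0))⁻¹) (fun k _ => by
          have h1 := UU_zpow_isNeg (K := K) (a k - a k0) (by have := hk0 k; omega)
          have h2 := h1.1.mul (isNeg_C (b.equivFun c k • LV ev (b k) * (LV ev (b k0))⁻¹))
          refine ⟨h2.1, ?_⟩
          rw [h2.2, h1.2, coeff_zero_C, one_mul])
    refine ⟨this.1, ?_⟩
    rw [this.2]
    exact hr.symm
  · rintro _ ⟨c, rfl⟩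
    exact ⟨(hposc c).1, rfl⟩
  · show (UU ^ (-(a k1)) * σ (LV ev (b k1))).coeff 0 ≠ 0
    rw [hlamb k1 rfl]
    exact hz0 k1
  · rintro _ ⟨c, rfl⟩
    show ∃ α β : ℂ, (UU ^ (-(a k1)) * σ (LV ev c)).coeff 0 =
      α • (UU ^ (-(a k1)) * σ (LV ev (b k1))).coeff 0 +
      β • (UU ^ (-(a k1)) * σ (LV ev (b k2))).coeff 0
    rw [hlamb k1 rfl, hlamb k2 hk2, (hposc c).2]
    by_cases h12 : k1 = k2
    · refine ⟨b.equivFun c k1, 0, ?_⟩
      rw [zero_smul, add_zero, Finset.sum_eq_single k1]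
      · rw [if_pos rfl]
      · intro k _ hk
        rw [if_neg]
        intro h
        rcases hk12 k h with h' | h'
        · exact hk h'
        · exact hk (h'.trans h12.symm)
      · simp
    · refine ⟨b.equivFun c k1, b.equivFun c k2, ?_⟩
      rw [Finset.sum_eq_add k1 k2 h12]
      · rw [if_pos rfl, if_pos hk2]
      · intro k _ hk
        rw [if_neg]
        intro h
        rcases hk12 k h with h' | h'
        · exact hk.1 h'
        · exact hk.2 h'
      · simp
      · simp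

theorem gm_case (I : Ideal S5) (ev : S5 →ₐ[ℂ] K)
    (hext : ∀ (g : S5 →ₐ[ℂ] HahnSeries ℤ K), (∀ f, f ∈ I ↔ g f = 0) →
      ∃ σ : K →ₐ[ℂ] HahnSeries ℤ K, ∀ f, σ (ev f) = g f)
    (hev : ∀ f, ev f = 0 ↔ f ∈ I)
    (hnd : ∀ c, lin c ∈ I → c = 0)
    (A : Matrix (Fin 5) (Fin 5) ℂ)
    (hI : ∀ f ∈ I, linearVF A f ∈ I)
    (b : Module.Basis (Fin 5) ℂ (Fin 5 → ℂ)) (μ : Fin 5 → ℂ)
    (hb : ∀ k, b k ∈ Module.End.maxGenEigenspace
      (Matrix.vecMulLinear A : Module.End ℂ (Fin 5 → ℂ)) (μ k))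
    (i j : Fin 5) (hij : μ i ≠ μ j)
    (w : Ω[K⁄ℂ])
    (hw : ∀ z ∈ LinearMap.range (LV ev), z ≠ 0 →
      w ∈ regForms (chartV (LinearMap.range (LV ev)) z)) : w = 0 := by
  classical
  obtain ⟨a, haij, ha⟩ := exists_weights μ i j hij
  have ha' : ∀ m m' : Fin 5 →₀ ℕ, wtC μ m = wtC μ m' → wtZ a m = wtZ a m' := ha
  obtain ⟨k0, hk0⟩ := Finite.exists_min a
  obtain ⟨k1, hk1⟩ := Finite.exists_max a
  have hne : a k0 ≠ a k1 := by
    intro h
    have h1 : ∀ k, a k = a k1 := fun k => le_antisymm (hk1 k) (h ▸ hk0 k)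
    exact haij ((h1 i).trans (h1 j).symm)
  have hdisj : (Finset.univ.filter fun k => a k = a k1).card +
      (Finset.univ.filter fun k => a k = a k0).card ≤ 5 := by
    rw [← Finset.card_union_of_disjoint]
    · have := Finset.card_le_univ ((Finset.univ.filter fun k => a k = a k1) ∪
        (Finset.univ.filter fun k => a k = a k0))
      simpa using this
    · rw [Finset.disjoint_left]
      intro k h1 h2
      rw [Finset.mem_filter] at h1 h2
      exact hne (h2.2.symm.trans h1.2)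
  by_cases hc : (Finset.univ.filter fun k => a k = a k1).card ≤ 2
  · exact gm_core I ev hext hev hnd A hI b μ hb a ha' k0 hk0 k1 hk1 hc w hw
  · have hwt : ∀ m, wtZ (fun k => - a k) m = - wtZ a m := by
      intro m
      simp [wtZ]
    refine gm_core I ev hext hev hnd A hI b μ hb (fun k => - a k) ?_ k1 ?_ k0 ?_ ?_ w hw
    · intro m m' h
      rw [hwt, hwt, ha' m m' h]
    · intro k
      have := hk1 k
      show - a k1 ≤ - a k
      omega
    · intro k
      have := hk0 k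
      show - a k ≤ - a k0
      omega
    · have : (Finset.univ.filter fun k => - a k = - a k0) =
          (Finset.univ.filter fun k => a k = a k0) := by
        ext k
        simp
      rw [this]
      omega

end Run7.h457
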