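import Mathlib
import Pool.Agent.Run7.h457.Defs
import Pool.Agent.Run7.h457.Laurent
import Pool.Agent.Run7.h457.Maps
import Pool.Agent.Run7.h457.Key
import Pool.Agent.Run7.h457.Ga
import Pool.Agent.Run7.h457.GaMain
import Pool.Agent.Run7.h457.Gm
import Pool.Agent.Run7.h457.GmMain
import Pool.Agent.Run7.h457.GmFinal

namespace Run7.h457

attribute [-instance] HahnSeries.powerSeriesAlgebra

open MvPolynomial KaehlerDifferential

variable {K : Type*} [Field K] [Algebra ℂ K]

lemma linearVF_one_monomial (m : Fin 5 →₀ ℕ) (c : ℂ) :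
    linearVF 1 (monomial m c) = (m.degree : ℂ) • monomial m c := by
  have hX : ∀ i, linearVF 1 (X i) = X i := by
    intro i
    rw [linearVF_X, Finset.sum_eq_single i]
    · simp
    · intro j _ hj; simp [Matrix.one_apply_ne (Ne.symm hj)]
    · simp
  have h1 : ∀ m : Fin 5 →₀ ℕ, linearVF 1 (monomial m (1 : ℂ)) = (m.degree : ℂ) • monomial m 1 := by
    intro m
    induction m using expo_induction with
    | h0 =>
      have h1 : (monomial 0 (1 : ℂ) : S5) = 1 := rfl
      rw [h1, Derivation.map_one_eq_zero]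
      simp
    | hs m k ih =>
      rw [monomial_step, Derivation.leibniz, ih, hX, smul_eq_mul, smul_eq_mul]
      have h2 : ((m + Finsupp.single k 1).degree : ℂ) = (m.degree : ℂ) + 1 := by
        rw [map_add, Finsupp.degree_single]; push_cast; rfl
      rw [h2, add_smul, one_smul, MvPolynomial.smul_eq_C_mul, MvPolynomial.smul_eq_C_mul]
      ring
  have h3 : (monomial m c : S5) = c • monomial m 1 := by
    rw [smul_monomial, smul_eq_mul, mul_one]
  rw [h3, Derivation.map_smul, h1, smul_comm]

lemma linearVF_one (f : S5) : linearVF 1 f =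
    ∑ n ∈ Finset.range (f.totalDegree + 1), (n : ℂ) • homogeneousComponent n f := by
  have h1 : ∀ n, ∀ g : S5, g.IsHomogeneous n → linearVF 1 g = (n : ℂ) • g := by
    intro n g hg
    conv_lhs => rw [g.as_sum]
    conv_rhs => rw [g.as_sum]
    rw [map_sum, Finset.smul_sum]
    refine Finset.sum_congr rfl fun m hm => ?_
    rw [linearVF_one_monomial]
    have : m.degree = n := by
      have := hg (mem_support_iff.mp hm)
      rw [Finsupp.degree_eq_weight_one]
      exact this
    rw [this]
  conv_lhs => rw [← sum_homogeneousComponent f]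
  rw [map_sum]
  refine Finset.sum_congr rfl fun n _ => ?_
  exact h1 n _ (homogeneousComponent_isHomogeneous n f)

theorem vf_case (I : Ideal S5) (ev : S5 →ₐ[ℂ] K)
    (hext : ∀ (g : S5 →ₐ[ℂ] HahnSeries ℤ K), (∀ f, f ∈ I ↔ g f = 0) →
      ∃ σ : K →ₐ[ℂ] HahnSeries ℤ K, ∀ f, σ (ev f) = g f)
    (hev : ∀ f, ev f = 0 ↔ f ∈ I)
    (hhom : ∀ f ∈ I, ∀ n : ℕ, homogeneousComponent n f ∈ I)
    (hnd : ∀ c, lin c ∈ I → c = 0)
    (A : Matrix (Fin 5) (Fin 5) ℂ) (hA : ∀ t : ℂ, A ≠ Matrix.scalar (Fin 5) t)
    (hI : ∀ f ∈ I, linearVF A f ∈ I)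
    (w : Ω[K⁄ℂ])
    (hw : ∀ z ∈ LinearMap.range (LV ev), z ≠ 0 →
      w ∈ regForms (chartV (LinearMap.range (LV ev)) z)) : w = 0 := by
  classical
  set T : Module.End ℂ (Fin 5 → ℂ) := Matrix.vecMulLinear A with hT
  obtain ⟨b, μ, hb⟩ := exists_adapted_basis T
  by_cases h : ∃ i j, μ i ≠ μ j
  · obtain ⟨i, j, hij⟩ := h
    exact gm_case I ev hext hev hnd A hI b μ hb i j hij w hw
  push Not at h
  set β := μ 0 with hβ
  have hμ : ∀ k, μ k = β := fun k => h k 0
  set N : Matrix (Fin 5) (Fin 5) ℂ := A - Matrix.scalar (Fin 5) β with hN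
  have hN0 : N ≠ 0 := by
    intro h0
    exact hA β (sub_eq_zero.mp h0)
  have hTN : (Matrix.vecMulLinear N : Module.End ℂ (Fin 5 → ℂ)) =
      T - β • (1 : Module.End ℂ (Fin 5 → ℂ)) := by
    apply LinearMap.ext
    intro c
    rw [Matrix.vecMulLinear_apply, LinearMap.sub_apply, hT, Matrix.vecMulLinear_apply,
      LinearMap.smul_apply, Module.End.one_apply, hN, Matrix.vecMul_sub]
    congr 1
    rw [Matrix.scalar_apply]
    funext j
    rw [Matrix.vecMul_diagonal]
    simp [mul_comm]
  have hN5 : N ^ 5 = 0 := by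
    have h1 : ∀ k, (((Matrix.vecMulLinear N : Module.End ℂ (Fin 5 → ℂ))) ^ 5) (b k) = 0 := by
      intro k
      have h2 := hb k
      rw [Module.End.maxGenEigenspace_eq_genEigenspace_finrank, hμ k,
        Module.End.mem_genEigenspace_nat] at h2
      rw [hTN]
      have h3 : Module.finrank ℂ (Fin 5 → ℂ) = 5 := by simp
      rw [h3] at h2
      exact h2
    have h4 : ((Matrix.vecMulLinear N : Module.End ℂ (Fin 5 → ℂ))) ^ 5 = 0 := by
      apply b.ext
      intro k
      rw [h1, LinearMap.zero_apply]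
    apply Matrix.ext_of_single_vecMul
    intro i
    rw [← vecMul_pow, h4, Matrix.vecMul_zero, LinearMap.zero_apply]
  have hIN : ∀ f ∈ I, linearVF N f ∈ I := by
    intro f hf
    have h1 : linearVF N f = linearVF A f - β • linearVF 1 f := by
      have h2 : linearVF N = linearVF A - β • linearVF 1 := by
        apply MvPolynomial.derivation_ext
        intro i
        rw [linearVF_X, Derivation.sub_apply, Derivation.smul_apply, linearVF_X, linearVF_X,
          Finset.smul_sum, ← Finset.sum_sub_distrib]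
        refine Finset.sum_congr rfl fun j _ => ?_
        rw [hN, Matrix.sub_apply, Matrix.scalar_apply, MvPolynomial.smul_eq_C_mul, ← mul_assoc,
          ← C_mul, ← sub_mul, ← C_sub]
        congr 2
        by_cases hij : i = j
        · subst hij; simp
        · rw [Matrix.diagonal_apply_ne _ hij, Matrix.one_apply_ne hij, mul_zero]
      rw [h2, Derivation.sub_apply, Derivation.smul_apply]
    rw [h1]
    refine I.sub_mem (hI f hf) ?_
    rw [MvPolynomial.smul_eq_C_mul]
    refine I.mul_mem_left _ ?_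
    rw [linearVF_one]
    refine I.sum_mem fun n _ => ?_
    rw [MvPolynomial.smul_eq_C_mul]
    exact I.mul_mem_left _ (hhom f hf n)
  exact ga_case I ev hext hev hnd N hN0 hN5 hIN w hw

end Run7.h457
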