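import Mathlib
import Pool.Agent.Run7.h457.Defs
import Pool.Agent.Run7.h457.Laurent
import Pool.Agent.Run7.h457.Maps
import Pool.Agent.Run7.h457.Key
import Pool.Agent.Run7.h457.Ga
import Pool.Agent.Run7.h457.GaMain
import Pool.Agent.Run7.h457.Inj
import Pool.Agent.Run7.h457.VF

namespace Run7.h457

attribute [-instance] HahnSeries.powerSeriesAlgebra

open MvPolynomial KaehlerDifferential

section
variable {K : Type} [Field K] [Algebra ℂ K]

lemma isFractionRing_range (x : Fin 5 → K)
    (hgen : IntermediateField.adjoin ℂ (Set.range x) = ⊤) :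
    IsFractionRing (aeval (R := ℂ) x : S5 →ₐ[ℂ] K).range K := by
  apply IsFractionRing.of_field
  intro z
  have hz : z ∈ IntermediateField.adjoin ℂ (Set.range x) := by rw [hgen]; trivial
  rw [IntermediateField.mem_adjoin_iff_div] at hz
  obtain ⟨r, hr, s, hs, rfl⟩ := hz
  rw [Algebra.adjoin_range_eq_range_aeval] at hr hs
  exact ⟨⟨r, hr⟩, ⟨s, hs⟩, rfl⟩

lemma ev_ext (x : Fin 5 → K) (hgen : IntermediateField.adjoin ℂ (Set.range x) = ⊤)
    (g : S5 →ₐ[ℂ] HahnSeries ℤ K)
    (hg : ∀ f, f ∈ RingHom.ker (aeval (R := ℂ) x : S5 →ₐ[ℂ] K) ↔ g f = 0) :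
    ∃ σ : K →ₐ[ℂ] HahnSeries ℤ K, ∀ f, σ (aeval (R := ℂ) x f) = g f := by
  have := isFractionRing_range x hgen
  obtain ⟨σ, hσ⟩ := exists_extend (K := K) (aeval (R := ℂ) x : S5 →ₐ[ℂ] K).rangeRestrict
    (aeval (R := ℂ) x : S5 →ₐ[ℂ] K).rangeRestrict_surjective g (by
      intro f
      rw [← hg f, RingHom.mem_ker]
      exact Subtype.ext_iff)
  exact ⟨σ, hσ⟩

lemma LV_aeval (x : Fin 5 → K) (c : Fin 5 → ℂ) : LV (aeval (R := ℂ) x) c = linK x c := by
  rw [LV_apply, lin_apply, map_sum, linK]
  refine Finset.sum_congr rfl fun i _ => ?_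
  rw [map_mul, aeval_X, MvPolynomial.aeval_C, Algebra.smul_def]

lemma chart_eq (x : Fin 5 → K) (c : Fin 5 → ℂ) :
    chart x c = chartV (LinearMap.range (LV (aeval (R := ℂ) x))) (LV (aeval (R := ℂ) x) c) := by
  unfold chart chartV
  congr 1
  ext z
  constructor
  · rintro ⟨d, rfl⟩
    exact ⟨_, ⟨d, rfl⟩, by rw [LV_aeval, LV_aeval]⟩
  · rintro ⟨_, ⟨d, rfl⟩, rfl⟩
    exact ⟨d, by rw [LV_aeval, LV_aeval]⟩

end

section
variable {K : Type} [Field K] [Algebra ℂ K]

/-- The extension of a differential on a subalgebra to the field. -/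
noncomputable def toK (A : Subalgebra ℂ K) :
    Ω[A⁄ℂ] →ₗ[A] Ω[K⁄ℂ] := KaehlerDifferential.map ℂ ℂ A K

lemma toK_D (A : Subalgebra ℂ K) (a : A) :
    toK A (D ℂ A a) = D ℂ K (a : K) := KaehlerDifferential.map_D ℂ ℂ A K a

lemma toK_res {A B : Subalgebra ℂ K} (h : A ≤ B)
    (w : Ω[A⁄ℂ]) : toK B (res h w) = toK A w := by
  have hw : w ∈ Submodule.span A (Set.range (D ℂ A)) := by
    rw [KaehlerDifferential.span_range_derivation]; trivial
  induction hw using Submodule.span_induction with
  | mem x hx =>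
    obtain ⟨a, rfl⟩ := hx
    let _ : Algebra A B := (Subalgebra.inclusion h).toRingHom.toAlgebra
    have _ : IsScalarTower ℂ A B := IsScalarTower.of_algebraMap_eq' rfl
    have h1 : res h (D ℂ A a) = D ℂ B (Subalgebra.inclusion h a) :=
      KaehlerDifferential.map_D ℂ ℂ A B a
    rw [h1, toK_D, toK_D]
    rfl
  | zero => rw [map_zero, map_zero, map_zero]
  | add x y _ _ hx hy => rw [map_add, map_add, map_add, hx, hy]
  | smul a x _ hx =>
    let _ : Algebra A B := (Subalgebra.inclusion h).toRingHom.toAlgebra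
    have _ : IsScalarTower ℂ A B := IsScalarTower.of_algebraMap_eq' rfl
    have h1 : res h (a • x) = (Subalgebra.inclusion h a) • res h x :=
      (KaehlerDifferential.map ℂ ℂ A B).map_smul a x
    rw [h1, map_smul, map_smul, hx]
    rfl

lemma toK_mem (A : Subalgebra ℂ K) (w : Ω[A⁄ℂ]) :
    toK A w ∈ regForms A := by
  have hw : w ∈ Submodule.span A (Set.range (D ℂ A)) := by
    rw [KaehlerDifferential.span_range_derivation]; trivial
  induction hw using Submodule.span_induction with
  | mem x hx =>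
    obtain ⟨a, rfl⟩ := hx
    rw [toK_D]
    refine AddSubgroup.subset_closure ⟨1, A.one_mem, a, a.2, ?_⟩
    rw [one_smul]
  | zero => rw [map_zero]; exact AddSubgroup.zero_mem _
  | add x y _ _ hx hy => rw [map_add]; exact AddSubgroup.add_mem _ hx hy
  | smul a x _ hx =>
    rw [map_smul]
    -- multiplication by an element of `A` preserves the group
    generalize toK A x = u at hx
    induction hx using AddSubgroup.closure_induction with
    | mem y hy =>
      obtain ⟨p, hp, q, hq, rfl⟩ := hy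
      refine AddSubgroup.subset_closure ⟨a * p, A.mul_mem a.2 hp, q, hq, ?_⟩
      rw [← smul_smul]
      rfl
    | zero => rw [smul_zero]; exact AddSubgroup.zero_mem _
    | add y z _ _ hy hz => rw [smul_add]; exact AddSubgroup.add_mem _ hy hz
    | neg y _ hy => rw [smul_neg]; exact AddSubgroup.neg_mem _ hy

/-- Main theorem: no global 1-forms on a smooth nondegenerate subvariety of projective 4-space
with a tangent linear vector field. -/
theorem irregularityZero_of_vf (x : Fin 5 → K) (hX : IsSmoothNondegenerate x)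
    (A : Matrix (Fin 5) (Fin 5) ℂ) (hA : ∀ t : ℂ, A ≠ Matrix.scalar (Fin 5) t)
    (hI : ∀ f : S5, aeval x f = 0 → aeval x (linearVF A f) = 0) : IrregularityZero x := by
  intro w hw
  set ev : S5 →ₐ[ℂ] K := aeval (R := ℂ) x with hev
  -- all the components have the same image in `Ω[K⁄ℂ]`
  have hagree : ∀ c d : Fin 5 → ℂ, c ≠ 0 → d ≠ 0 →
      toK (chart x c) (w c) = toK (chart x d) (w d) := by
    intro c d hc hd
    have h1 : Agree (w c) (w d) := hw c d hc hd
    unfold Agree at h1
    have h2 := congrArg (toK (chart x c ⊔ chart x d)) h1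
    rwa [toK_res, toK_res] at h2
  have hzero : ∀ c : Fin 5 → ℂ, c ≠ 0 → toK (chart x c) (w c) = 0 := by
    intro c hc
    refine vf_case (RingHom.ker ev) ev (ev_ext x hX.generates) (fun f => (RingHom.mem_ker).symm)
      (fun f hf n => hX.homogeneous f hf n) ?_ A hA (fun f hf => hI f hf) _ ?_
    · intro c hc
      apply hX.nondegenerate
      rw [← LV_aeval]
      exact hc
    · rintro _ ⟨d, rfl⟩ hd
      have hd0 : d ≠ 0 := by
        rintro rfl
        exact hd (map_zero _)
      rw [hagree c d hc hd0, hev, ← chart_eq]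
      exact toK_mem _ _
  intro c hc
  have hsm := hX.smooth c hc
  have hinj := map_injective (chart x c) K
  apply hinj
  rw [map_zero]
  exact hzero c hc

end

end Run7.h457
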