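import Mathlib
import Pool.Agent.Run7.h457.Defs
import Pool.Agent.Run7.h457.Ga
import Pool.Agent.Run7.h457.VF

namespace Run7.h457

open MvPolynomial

/-- polynomial functions on the space of `5 × 5` matrices -/
abbrev OO : Type := MvPolynomial (Fin 5 × Fin 5) ℂ

/-- the point of the affine space given by a matrix -/
def mpt (g : Matrix (Fin 5) (Fin 5) ℂ) : Fin 5 × Fin 5 → ℂ := fun p => g p.1 p.2

/-- The linear substitution `f ↦ f(g x)`. -/
noncomputable def subst (g : Matrix (Fin 5) (Fin 5) ℂ) : S5 →ₐ[ℂ] S5 := aeval (fun i => lin (g i))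

lemma subst_X (g : Matrix (Fin 5) (Fin 5) ℂ) (i : Fin 5) : subst g (X i) = lin (g i) := by
  rw [subst, aeval_X]

lemma subst_C (g : Matrix (Fin 5) (Fin 5) ℂ) (c : ℂ) : subst g (C c) = C c := by
  rw [← MvPolynomial.algebraMap_eq, AlgHom.commutes]

/-- The universal linear substitution. -/
noncomputable def usubst : S5 →ₐ[ℂ] MvPolynomial (Fin 5) OO :=
  aeval (fun i => ∑ j, C (X (i, j)) * X j)

/-- Specialisation of the universal substitution. -/
noncomputable def spec (g : Matrix (Fin 5) (Fin 5) ℂ) : MvPolynomial (Fin 5) OO →ₐ[ℂ] S5 :=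
  mapAlgHom (aeval (mpt g))

lemma spec_coeff (g : Matrix (Fin 5) (Fin 5) ℂ) (P : MvPolynomial (Fin 5) OO)
    (m : Fin 5 →₀ ℕ) : coeff m (spec g P) = aeval (mpt g) (coeff m P) := by
  rw [spec, mapAlgHom_apply, coeff_map]
  rfl

lemma spec_usubst (g : Matrix (Fin 5) (Fin 5) ℂ) (f : S5) : spec g (usubst f) = subst g f := by
  have : (spec g).comp usubst = subst g := by
    apply MvPolynomial.algHom_ext
    intro i
    rw [AlgHom.comp_apply, usubst, aeval_X, subst, aeval_X, map_sum, lin_apply]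
    refine Finset.sum_congr rfl fun j _ => ?_
    rw [map_mul, spec, mapAlgHom_apply, mapAlgHom_apply, map_C, map_X]
    congr 2
    simp [mpt]
  rw [← this, AlgHom.comp_apply]

/-- A point derivation of `OO` at the matrix `g`. -/
structure PtDer (g : Matrix (Fin 5) (Fin 5) ℂ) (δ : OO →ₗ[ℂ] ℂ) : Prop where
  one : δ 1 = 0
  mul : ∀ P Q : OO, δ (P * Q) = aeval (mpt g) P * δ Q + aeval (mpt g) Q * δ P

lemma PtDer.const {g : Matrix (Fin 5) (Fin 5) ℂ} {δ : OO →ₗ[ℂ] ℂ} (h : PtDer g δ) (c : ℂ) :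
    δ (C c) = 0 := by
  have : (C c : OO) = c • 1 := by rw [MvPolynomial.smul_eq_C_mul, mul_one]
  rw [this, map_smul, h.one, smul_zero]

/-- `u` is obtained from `P` by applying `δ` to the coefficients. -/
def Rel (δ : OO →ₗ[ℂ] ℂ) (P : MvPolynomial (Fin 5) OO) (u : S5) : Prop :=
  ∀ m, coeff m u = δ (coeff m P)

lemma Rel.add {δ : OO →ₗ[ℂ] ℂ} {P Q : MvPolynomial (Fin 5) OO} {u v : S5}
    (h1 : Rel δ P u) (h2 : Rel δ Q v) : Rel δ (P + Q) (u + v) := by
  intro m
  rw [coeff_add, coeff_add, map_add, h1 m, h2 m]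

lemma Rel.zero {δ : OO →ₗ[ℂ] ℂ} : Rel δ 0 0 := by
  intro m
  simp

lemma Rel.sum {δ : OO →ₗ[ℂ] ℂ} {ι : Type} (s : Finset ι) (P : ι → MvPolynomial (Fin 5) OO)
    (u : ι → S5) (h : ∀ i ∈ s, Rel δ (P i) (u i)) : Rel δ (∑ i ∈ s, P i) (∑ i ∈ s, u i) := by
  classical
  induction s using Finset.induction_on with
  | empty => simpa using Rel.zero
  | insert i s hi ih =>
    rw [Finset.sum_insert hi, Finset.sum_insert hi]
    exact (h i (Finset.mem_insert_self _ _)).add
      (ih fun j hj => h j (Finset.mem_insert_of_mem hj))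

lemma Rel.mul {g : Matrix (Fin 5) (Fin 5) ℂ} {δ : OO →ₗ[ℂ] ℂ} (hδ : PtDer g δ)
    {P Q : MvPolynomial (Fin 5) OO} {u v : S5}
    (h1 : Rel δ P u) (h2 : Rel δ Q v) : Rel δ (P * Q) (spec g P * v + spec g Q * u) := by
  classical
  intro m
  rw [coeff_add, mul_comm (spec g Q), coeff_mul, coeff_mul, coeff_mul, map_sum,
    ← Finset.sum_add_distrib]
  refine Finset.sum_congr rfl fun ab _ => ?_
  rw [hδ.mul, spec_coeff, spec_coeff, h1, h2, mul_comm (δ _) (aeval _ _)]

lemma rel_var {δ : OO →ₗ[ℂ] ℂ} (i j : Fin 5) : Rel δ (C (X (i, j)) * X j) (C (δ (X (i, j))) * X j) := by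
  classical
  intro m
  rw [coeff_C_mul, coeff_C_mul, coeff_X, coeff_X]
  split_ifs <;> simp

lemma rel_usubst {g : Matrix (Fin 5) (Fin 5) ℂ} {δ : OO →ₗ[ℂ] ℂ} (hδ : PtDer g δ)
    (A : Matrix (Fin 5) (Fin 5) ℂ) (hA : ∀ i j, (g * A) i j = δ (X (i, j))) (f : S5) :
    Rel δ (usubst f) (linearVF A (subst g f)) := by
  induction f using MvPolynomial.induction_on with
  | C a =>
    rw [← MvPolynomial.algebraMap_eq, AlgHom.commutes, AlgHom.commutes,
      Derivation.map_algebraMap]
    intro m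
    have h1 : algebraMap ℂ (MvPolynomial (Fin 5) OO) a = C (C a) := rfl
    rw [h1, coeff_C]
    split_ifs
    · rw [hδ.const, coeff_zero]
    · rw [map_zero, coeff_zero]
  | add p q hp hq =>
    rw [map_add, map_add, map_add]
    exact hp.add hq
  | mul_X p i hp =>
    rw [map_mul, map_mul, Derivation.leibniz, smul_eq_mul, smul_eq_mul]
    have hX : Rel δ (usubst (X i)) (linearVF A (subst g (X i))) := by
      rw [usubst, aeval_X, subst, aeval_X, linearVF_lin, lin_apply]
      refine Rel.sum _ _ _ fun j _ => ?_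
      have h2 : Matrix.vecMul (g i) A j = δ (X (i, j)) := by
        rw [← hA i j, Matrix.mul_apply]
        rfl
      rw [h2]
      exact rel_var i j
    have h := hp.mul hδ hX
    rw [spec_usubst, spec_usubst] at h
    exact h

/-- The polynomial function `g ↦ φ (f(g x))`. -/
noncomputable def FF (φ : S5 →ₗ[ℂ] ℂ) (f : S5) : OO :=
  ∑ m ∈ (usubst f).support, coeff m (usubst f) * C (φ (monomial m 1))

lemma phi_eq_sum (φ : S5 →ₗ[ℂ] ℂ) (u : S5) (s : Finset (Fin 5 →₀ ℕ)) (hs : u.support ⊆ s) :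
    φ u = ∑ m ∈ s, coeff m u * φ (monomial m 1) := by
  conv_lhs => rw [u.as_sum, map_sum]
  rw [← Finset.sum_subset hs]
  · refine Finset.sum_congr rfl fun m _ => ?_
    have : (monomial m (coeff m u) : S5) = coeff m u • monomial m 1 := by
      rw [smul_monomial, smul_eq_mul, mul_one]
    rw [this, map_smul, smul_eq_mul]
  · intro m _ hm
    rw [notMem_support_iff.mp hm, zero_mul]

lemma eval_FF (φ : S5 →ₗ[ℂ] ℂ) (f : S5) (g : Matrix (Fin 5) (Fin 5) ℂ) :
    aeval (mpt g) (FF φ f) = φ (subst g f) := by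
  rw [← spec_usubst, phi_eq_sum φ _ (usubst f).support, FF, map_sum]
  · refine Finset.sum_congr rfl fun m _ => ?_
    rw [map_mul, spec_coeff, MvPolynomial.aeval_C]
    rfl
  · intro m hm
    rw [mem_support_iff] at hm ⊢
    intro h
    apply hm
    rw [spec_coeff, h, map_zero]

lemma der_FF {g : Matrix (Fin 5) (Fin 5) ℂ} {δ : OO →ₗ[ℂ] ℂ} (hδ : PtDer g δ)
    (A : Matrix (Fin 5) (Fin 5) ℂ) (hA : ∀ i j, (g * A) i j = δ (X (i, j)))
    (φ : S5 →ₗ[ℂ] ℂ) (f : S5) :
    δ (FF φ f) = φ (linearVF A (subst g f)) := by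
  have hrel := rel_usubst hδ A hA f
  rw [phi_eq_sum φ (linearVF A (subst g f)) (usubst f).support, FF, map_sum]
  · refine Finset.sum_congr rfl fun m _ => ?_
    rw [hδ.mul, hδ.const, mul_zero, zero_add, MvPolynomial.aeval_C, hrel m]
    exact mul_comm _ _
  · intro m hm
    rw [mem_support_iff] at hm ⊢
    intro h
    apply hm
    rw [hrel m, h, map_zero]

/-- An infinite set of matrices admits a nonzero tangent vector at one of its points: there is a
nonzero point derivation killing the vanishing ideal. -/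
lemma exists_ptDer (T : Set (Matrix (Fin 5) (Fin 5) ℂ)) (hT : T.Infinite) :
    ∃ g ∈ T, ∃ δ : OO →ₗ[ℂ] ℂ, PtDer g δ ∧ δ ≠ 0 ∧
      ∀ F : OO, (∀ h ∈ T, aeval (mpt h) F = 0) → δ F = 0 := by
  classical
  let J : Ideal OO := vanishingIdeal ℂ (mpt '' T)
  have hJ : ∀ F, F ∈ J ↔ ∀ h ∈ T, aeval (mpt h) F = 0 := by
    intro F
    rw [mem_vanishingIdeal_iff]
    simp
  let mm : Matrix (Fin 5) (Fin 5) ℂ → Ideal OO := fun g => RingHom.ker (aeval (R := ℂ) (mpt g))
  have hmm : ∀ g F, F ∈ mm g ↔ aeval (mpt g) F = 0 := fun g F => RingHom.mem_ker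
  have hinj : Function.Injective mm := by
    intro g h hgh
    ext i j
    have h1 : (X (i, j) - C (g i j) : OO) ∈ mm g := by
      rw [hmm, map_sub, aeval_X, MvPolynomial.aeval_C]
      simp [mpt]
    rw [hgh, hmm, map_sub, aeval_X, MvPolynomial.aeval_C] at h1
    have h2 : h i j - g i j = 0 := by simpa [mpt] using h1
    exact (sub_eq_zero.mp h2).symm
  obtain ⟨g, hgT, hg⟩ : ∃ g ∈ T, mm g ∉ J.minimalPrimes := by
    by_contra hcon
    push Not at hcon
    apply hT
    have hfin := J.finite_minimalPrimes_of_isNoetherianRing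
    exact Set.Finite.of_finite_image (hfin.subset (by
      rintro _ ⟨g, hg, rfl⟩
      exact hcon g hg)) hinj.injOn
  have hprime : (mm g).IsPrime := RingHom.ker_isPrime _
  have hJle : J ≤ mm g := fun F hF => (hJ F).mp hF g hgT
  obtain ⟨P, hP, hPle⟩ := Ideal.exists_minimalPrimes_le hJle
  have hPprime : P.IsPrime := hP.1.1
  have hJP : J ≤ P := hP.1.2
  have hne : P ≠ mm g := by
    rintro rfl
    exact hg hP
  -- `mm g` is not contained in its square plus `P`
  have hnot : ¬ mm g ≤ mm g ^ 2 ⊔ P := by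
    intro hle
    let q := Ideal.Quotient.mk P
    have h1 : IsIdempotentElem ((mm g).map q) := by
      rw [IsIdempotentElem, ← Ideal.map_mul, ← pow_two]
      apply le_antisymm
      · exact Ideal.map_mono (Ideal.pow_le_self two_ne_zero)
      · refine (Ideal.map_mono hle).trans ?_
        rw [Ideal.map_sup, Ideal.map_quotient_self, sup_bot_eq]
    have hfg : ((mm g).map q).FG := Ideal.FG.map (IsNoetherian.noetherian (mm g)) q
    rcases (Ideal.isIdempotentElem_iff_eq_bot_or_top _ hfg).mp h1 with h | h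
    · apply hne
      apply le_antisymm hPle
      rw [Ideal.map_eq_bot_iff_le_ker, Ideal.mk_ker] at h
      exact h
    · apply hprime.ne_top
      have h2 : Ideal.comap q ((mm g).map q) = ⊤ := by rw [h, Ideal.comap_top]
      rw [Ideal.comap_map_of_surjective q Ideal.Quotient.mk_surjective] at h2
      have h3 : Ideal.comap q ⊥ = P := by
        rw [← RingHom.ker_eq_comap_bot, Ideal.mk_ker]
      rw [h3, sup_eq_left.mpr hPle] at h2
      exact h2
  obtain ⟨F0, hF0, hF0n⟩ := SetLike.not_le_iff_exists.mp hnot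
  -- a functional
  let N : Submodule ℂ OO := (mm g ^ 2 ⊔ P).restrictScalars ℂ ⊔ Submodule.span ℂ {1}
  have hF0N : F0 ∉ N := by
    intro h
    obtain ⟨a, ha, b, hb, hab⟩ := Submodule.mem_sup.mp h
    obtain ⟨c, rfl⟩ := Submodule.mem_span_singleton.mp hb
    have ha' : a ∈ mm g := by
      have : mm g ^ 2 ⊔ P ≤ mm g := sup_le (Ideal.pow_le_self two_ne_zero) hPle
      exact this ha
    have hc : c = 0 := by
      rw [hmm] at hF0 ha'
      rw [← hab, map_add, ha', zero_add, map_smul, map_one, smul_eq_mul, mul_one] at hF0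
      exact hF0
    apply hF0n
    rw [← hab, hc, zero_smul, add_zero]
    exact ha
  obtain ⟨δ, hδF0, hδN⟩ := Submodule.exists_le_ker_of_notMem hF0N
  have hδ1 : ∀ F ∈ mm g ^ 2 ⊔ P, δ F = 0 := fun F hF =>
    LinearMap.mem_ker.mp (hδN (Submodule.mem_sup_left hF))
  have hδone : δ 1 = 0 :=
    LinearMap.mem_ker.mp (hδN (Submodule.mem_sup_right (Submodule.mem_span_singleton_self 1)))
  refine ⟨g, hgT, δ, ⟨hδone, ?_⟩, ?_, ?_⟩
  · intro A B
    have hA : A - C (aeval (mpt g) A) ∈ mm g := by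
      rw [hmm, map_sub, MvPolynomial.aeval_C]; simp
    have hB : B - C (aeval (mpt g) B) ∈ mm g := by
      rw [hmm, map_sub, MvPolynomial.aeval_C]; simp
    have h1 : (A - C (aeval (mpt g) A)) * (B - C (aeval (mpt g) B)) ∈ mm g ^ 2 ⊔ P := by
      apply Ideal.mem_sup_left
      rw [pow_two]
      exact Ideal.mul_mem_mul hA hB
    have h2 := hδ1 _ h1
    have h3 : (A - C (aeval (mpt g) A)) * (B - C (aeval (mpt g) B)) =
        A * B - (aeval (mpt g) A) • B - (aeval (mpt g) B) • A +
          (aeval (mpt g) A * aeval (mpt g) B) • 1 := by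
      rw [MvPolynomial.smul_eq_C_mul, MvPolynomial.smul_eq_C_mul, MvPolynomial.smul_eq_C_mul,
        C_mul]
      ring
    rw [h3, map_add, map_sub, map_sub, map_smul, map_smul, map_smul, hδone, smul_zero, add_zero,
      smul_eq_mul, smul_eq_mul] at h2
    linear_combination h2
  · intro h
    apply hδF0
    rw [h]
    rfl
  · intro F hF
    exact hδ1 F (Ideal.mem_sup_right (hJP ((hJ F).mpr hF)))

lemma ptDer_ext {g : Matrix (Fin 5) (Fin 5) ℂ} {δ : OO →ₗ[ℂ] ℂ} (hδ : PtDer g δ)
    (h : ∀ i j, δ (X (i, j)) = 0) : δ = 0 := by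
  apply LinearMap.ext
  intro F
  rw [LinearMap.zero_apply]
  induction F using MvPolynomial.induction_on with
  | C a => exact hδ.const a
  | add p q hp hq => rw [map_add, hp, hq, add_zero]
  | mul_X p ij hp =>
    obtain ⟨i, j⟩ := ij
    rw [hδ.mul, hp, h, mul_zero, mul_zero, add_zero]

/-- Infinitely many matrices preserving an ideal, normalised by one entry, give a non-scalar
linear vector field preserving the ideal. -/
lemma exists_vf_of_infinite (I : Ideal S5) (T : Set (Matrix (Fin 5) (Fin 5) ℂ))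
    (hT : T.Infinite) (hdet : ∀ g ∈ T, IsUnit g.det)
    (hpres : ∀ g ∈ T, ∀ f, f ∈ I ↔ subst g f ∈ I)
    (i0 j0 : Fin 5) (hnorm : ∀ g ∈ T, g i0 j0 = 1) :
    ∃ A : Matrix (Fin 5) (Fin 5) ℂ, (∀ t : ℂ, A ≠ Matrix.scalar (Fin 5) t) ∧
      ∀ f ∈ I, linearVF A f ∈ I := by
  obtain ⟨g, hgT, δ, hδ, hδ0, hδJ⟩ := exists_ptDer T hT
  let B : Matrix (Fin 5) (Fin 5) ℂ := fun i j => δ (X (i, j))
  let A : Matrix (Fin 5) (Fin 5) ℂ := g⁻¹ * B
  have hgA : g * A = B := Matrix.mul_nonsing_inv_cancel_left g B (hdet g hgT)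
  have hA : ∀ i j, (g * A) i j = δ (X (i, j)) := fun i j => by rw [hgA]
  refine ⟨A, ?_, ?_⟩
  · intro t ht
    have hB : B = t • g := by
      rw [← hgA, ht, Matrix.scalar_apply, ← Matrix.smul_one_eq_diagonal, Matrix.mul_smul,
        Matrix.mul_one]
    have h1 : B i0 j0 = 0 := by
      have h2 : δ (X (i0, j0) - C 1) = 0 := by
        apply hδJ
        intro h hh
        rw [map_sub, aeval_X, MvPolynomial.aeval_C]
        simp [mpt, hnorm h hh]
      rw [map_sub, hδ.const, sub_zero] at h2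
      exact h2
    rw [hB, Matrix.smul_apply, hnorm g hgT, smul_eq_mul, mul_one] at h1
    apply hδ0
    apply ptDer_ext hδ
    intro i j
    have : B i j = 0 := by rw [hB, h1, zero_smul]; rfl
    exact this
  · -- surjectivity of the substitution on `I`
    intro h hh
    have hsurj : subst g (subst g⁻¹ h) = h := by
      have hcomp : (subst g).comp (subst g⁻¹) = AlgHom.id ℂ S5 := by
        apply MvPolynomial.algHom_ext
        intro i
        rw [AlgHom.comp_apply, subst_X, AlgHom.id_apply, lin_apply, map_sum]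
        have h1 : ∀ j, subst g (C (g⁻¹ i j) * X j : S5) =
            ∑ k, C (g⁻¹ i j * g j k) * X k := by
          intro j
          rw [map_mul, subst_X, subst_C, lin_apply, Finset.mul_sum]
          refine Finset.sum_congr rfl fun k _ => ?_
          rw [C_mul, mul_assoc]
        rw [Finset.sum_congr rfl fun j _ => h1 j, Finset.sum_comm]
        have h2 : ∀ k, ∑ j, C (g⁻¹ i j * g j k) * (X k : S5) =
            C ((1 : Matrix (Fin 5) (Fin 5) ℂ) i k) * X k := by
          intro k
          rw [← Finset.sum_mul, ← map_sum, ← Matrix.mul_apply,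
            Matrix.nonsing_inv_mul g (hdet g hgT)]
        rw [Finset.sum_congr rfl fun k _ => h2 k, Finset.sum_eq_single i]
        · simp
        · intro j _ hj
          simp [Matrix.one_apply_ne (Ne.symm hj)]
        · simp
      rw [← AlgHom.comp_apply, hcomp, AlgHom.id_apply]
    have hf : subst g⁻¹ h ∈ I := by
      rw [hpres g hgT, hsurj]
      exact hh
    set f := subst g⁻¹ h with hfdef
    rw [← hsurj]
    by_contra hcon
    obtain ⟨φ, hφ, hφI⟩ := Submodule.exists_le_ker_of_notMem (K := ℂ)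
      (p := I.restrictScalars ℂ) (v := linearVF A (subst g f)) hcon
    apply hφ
    rw [← der_FF hδ A hA φ f]
    apply hδJ
    intro k hk
    rw [eval_FF]
    exact LinearMap.mem_ker.mp (hφI ((hpres k hk f).mp hf))

end Run7.h457
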