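import Mathlib
import Pool.Agent.Run7.h457.Defs
import Pool.Agent.Run7.h457.DefsGroup
import Pool.Agent.Run7.h457.Ga
import Pool.Agent.Run7.h457.VF
import Pool.Agent.Run7.h457.Group
import Pool.Agent.Run7.h457.Final

namespace Run7.h457

open MvPolynomial

lemma subst_smul_one_monomial (c : ℂ) (m : Fin 5 →₀ ℕ) :
    subst (c • (1 : Matrix (Fin 5) (Fin 5) ℂ)) (monomial m (1 : ℂ)) =
      c ^ m.degree • monomial m 1 := by
  have hX : ∀ i, subst (c • (1 : Matrix (Fin 5) (Fin 5) ℂ)) (X i) = c • X i := by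
    intro i
    rw [subst_X]
    have : (c • (1 : Matrix (Fin 5) (Fin 5) ℂ)) i = c • Pi.single i 1 := by
      funext j
      rw [Matrix.smul_apply, Pi.smul_apply, Matrix.one_apply, Pi.single_apply]
      simp [eq_comm]
    rw [this, map_smul, lin_single]
  induction m using expo_induction with
  | h0 =>
    have h1 : (monomial 0 (1 : ℂ) : S5) = 1 := rfl
    rw [h1, map_one]
    simp
  | hs m k ih =>
    rw [monomial_step, map_mul, ih, hX, map_add, Finsupp.degree_single, pow_add, pow_one,
      smul_mul_smul_comm]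

lemma subst_smul_one (c : ℂ) (f : S5) :
    subst (c • (1 : Matrix (Fin 5) (Fin 5) ℂ)) f =
      ∑ n ∈ Finset.range (f.totalDegree + 1), c ^ n • homogeneousComponent n f := by
  have h1 : ∀ n, ∀ g : S5, g.IsHomogeneous n →
      subst (c • (1 : Matrix (Fin 5) (Fin 5) ℂ)) g = c ^ n • g := by
    intro n g hg
    conv_lhs => rw [g.as_sum]
    conv_rhs => rw [g.as_sum]
    rw [map_sum, Finset.smul_sum]
    refine Finset.sum_congr rfl fun m hm => ?_
    have h3 : (monomial m (coeff m g) : S5) = coeff m g • monomial m 1 := by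
      rw [smul_monomial, smul_eq_mul, mul_one]
    rw [h3, map_smul, subst_smul_one_monomial, smul_comm]
    have : m.degree = n := by
      have := hg (mem_support_iff.mp hm)
      rw [Finsupp.degree_eq_weight_one]
      exact this
    rw [this]
  conv_lhs => rw [← sum_homogeneousComponent f]
  rw [map_sum]
  refine Finset.sum_congr rfl fun n _ => ?_
  exact h1 n _ (homogeneousComponent_isHomogeneous n f)

lemma subst_mul (g h : Matrix (Fin 5) (Fin 5) ℂ) (f : S5) :
    subst h (subst g f) = subst (g * h) f := by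
  have : (subst h).comp (subst g) = subst (g * h) := by
    apply MvPolynomial.algHom_ext
    intro i
    rw [AlgHom.comp_apply, subst_X, subst_X, lin_apply, map_sum]
    have h1 : ∀ j, subst h (C (g i j) * X j : S5) = ∑ k, C (g i j * h j k) * X k := by
      intro j
      rw [map_mul, subst_X, subst_C, lin_apply, Finset.mul_sum]
      refine Finset.sum_congr rfl fun k _ => ?_
      rw [C_mul, mul_assoc]
    rw [Finset.sum_congr rfl fun j _ => h1 j, Finset.sum_comm, lin_apply]
    refine Finset.sum_congr rfl fun k _ => ?_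
    rw [← Finset.sum_mul, ← map_sum, ← Matrix.mul_apply]
  rw [← this, AlgHom.comp_apply]

lemma scale_mem (I : Ideal S5) (hhom : ∀ f ∈ I, ∀ n : ℕ, homogeneousComponent n f ∈ I)
    (c : ℂ) (f : S5) (hf : f ∈ I) : subst (c • (1 : Matrix (Fin 5) (Fin 5) ℂ)) f ∈ I := by
  rw [subst_smul_one]
  refine I.sum_mem fun n _ => ?_
  rw [MvPolynomial.smul_eq_C_mul]
  exact I.mul_mem_left _ (hhom f hf n)

lemma pres_smul (I : Ideal S5) (hhom : ∀ f ∈ I, ∀ n : ℕ, homogeneousComponent n f ∈ I)
    (g : Matrix (Fin 5) (Fin 5) ℂ) (hg : ∀ f, f ∈ I ↔ subst g f ∈ I) (c : ℂ) (hc : c ≠ 0) :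
    ∀ f, f ∈ I ↔ subst (c • g) f ∈ I := by
  have h1 : ∀ f, subst (c • g) f = subst (c • (1 : Matrix (Fin 5) (Fin 5) ℂ)) (subst g f) := by
    intro f
    rw [subst_mul, Matrix.mul_smul, Matrix.mul_one]
  have h2 : ∀ f, subst g f = subst (c⁻¹ • (1 : Matrix (Fin 5) (Fin 5) ℂ)) (subst (c • g) f) := by
    intro f
    rw [subst_mul, Matrix.mul_smul, Matrix.mul_one, smul_smul, inv_mul_cancel₀ hc, one_smul]
  intro f
  constructor
  · intro hf
    rw [h1]
    exact scale_mem I hhom c _ ((hg f).mp hf)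
  · intro hf
    rw [hg f, h2]
    exact scale_mem I hhom _ _ hf

section
variable {K : Type} [Field K] [Algebra ℂ K]

lemma aeval_subst (x : Fin 5 → K) (g : Matrix (Fin 5) (Fin 5) ℂ) (f : S5) :
    aeval x (subst g f) = aeval (fun i => linK x (g i)) f := by
  have : (aeval x : S5 →ₐ[ℂ] K).comp (subst g) = aeval (fun i => linK x (g i)) := by
    apply MvPolynomial.algHom_ext
    intro i
    rw [AlgHom.comp_apply, subst_X, aeval_X, ← LV_aeval, LV_apply]
  rw [← this, AlgHom.comp_apply]

/-- A smooth subvariety of projective 4-space, not contained in a hyperplane, with infinitely many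
projective automorphisms has irregularity zero. -/
theorem irregularityZero_of_infinite (x : Fin 5 → K) (hX : IsSmoothNondegenerate x)
    (g : ℕ → Matrix (Fin 5) (Fin 5) ℂ) (hg : ∀ n, IsProjAut x (g n))
    (hne : ∀ m n, m ≠ n → ∀ t : ℂ, g m ≠ t • g n) : IrregularityZero x := by
  classical
  set I : Ideal S5 := RingHom.ker (aeval (R := ℂ) x : S5 →ₐ[ℂ] K) with hI
  have hmem : ∀ f, f ∈ I ↔ aeval x f = 0 := fun f => RingHom.mem_ker
  have hhom : ∀ f ∈ I, ∀ n : ℕ, homogeneousComponent n f ∈ I :=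
    fun f hf n => hX.homogeneous f hf n
  have hpres : ∀ n f, f ∈ I ↔ subst (g n) f ∈ I := by
    intro n f
    rw [hmem, hmem, aeval_subst]
    exact (hg n).2 f
  -- a nonzero entry
  have hentry : ∀ n, ∃ p : Fin 5 × Fin 5, g n p.1 p.2 ≠ 0 := by
    intro n
    by_contra hcon
    push Not at hcon
    apply (hg n).1
    have : g n = 0 := by
      ext i j
      exact hcon (i, j)
    rw [this, Matrix.det_zero]
  choose p hp using hentry
  obtain ⟨q, hq⟩ := Finite.exists_infinite_fiber p
  have hqinf : (p ⁻¹' {q}).Infinite := Set.infinite_coe_iff.mp hq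
  let h : ℕ → Matrix (Fin 5) (Fin 5) ℂ := fun n => (g n (p n).1 (p n).2)⁻¹ • g n
  let T : Set (Matrix (Fin 5) (Fin 5) ℂ) := h '' (p ⁻¹' {q})
  have hinj : Function.Injective h := by
    intro m n hmn
    by_contra hmn'
    have h2 : g m = g m (p m).1 (p m).2 • h m := by
      show g m = g m (p m).1 (p m).2 • ((g m (p m).1 (p m).2)⁻¹ • g m)
      rw [smul_smul, mul_inv_cancel₀ (hp m), one_smul]
    have h4 : g m (p m).1 (p m).2 • h n =
        (g m (p m).1 (p m).2 * (g n (p n).1 (p n).2)⁻¹) • g n := by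
      show g m (p m).1 (p m).2 • ((g n (p n).1 (p n).2)⁻¹ • g n) = _
      rw [smul_smul]
    have h1 : g m = (g m (p m).1 (p m).2 * (g n (p n).1 (p n).2)⁻¹) • g n := by
      rw [← h4, ← hmn]
      exact h2
    exact hne m n hmn' _ h1
  have hT : T.Infinite := hqinf.image hinj.injOn
  obtain ⟨A, hA, hAI⟩ := exists_vf_of_infinite I T hT
    (by
      rintro _ ⟨n, _, rfl⟩
      rw [isUnit_iff_ne_zero, Matrix.det_smul]
      exact mul_ne_zero (pow_ne_zero _ (inv_ne_zero (hp n))) (hg n).1)
    (by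
      rintro _ ⟨n, _, rfl⟩
      exact pres_smul I hhom (g n) (hpres n) _ (inv_ne_zero (hp n)))
    q.1 q.2
    (by
      rintro _ ⟨n, hn, rfl⟩
      have hn' : p n = q := hn
      show ((g n (p n).1 (p n).2)⁻¹ • g n) q.1 q.2 = 1
      rw [Matrix.smul_apply, smul_eq_mul, ← hn', inv_mul_cancel₀ (hp n)])
  exact irregularityZero_of_vf x hX A hA (fun f hf => hAI f hf)

end

end Run7.h457
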